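import Pool.Agent.MP_d62b8f_an.Core

namespace Pool.Agent.MP_d62b8f_an

open MeasureTheory Set Filter Topology NNReal Polynomial

theorem card_ne_zero_le {n m : ℕ} (hmn : m < n) (ν : Fin n → Fin m → ℝ) (a : ℕ → Fin m → ℝ)
    (c t : ℕ → ℝ) (ht : Function.Injective t)
    (h : ∀ r i, ∑ l, ν i l * a r l = t r ^ (i : ℕ) * c r) (N : ℕ) :
    ((Finset.range N).filter fun r => c r ≠ 0).card ≤ n := by
  classical
  obtain ⟨u, hu, hu0⟩ := (Submodule.ne_bot_iff _).1
    (LinearMap.ker_ne_bot_of_finrank_lt (f := Matrix.vecMulLinear (Matrix.of ν)) (by simpa))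
  have hu' : ∀ l, ∑ i, u i * ν i l = 0 := fun l => by
    simpa [Matrix.vecMul, dotProduct] using congrFun (LinearMap.mem_ker.1 hu) l
  let P : ℝ[X] := ∑ i : Fin n, monomial i (u i)
  have hP : P ≠ 0 := fun h0 => hu0 (funext fun i => by
    have := congrArg (coeff · i) h0
    simpa [P, coeff_monomial, Fin.val_inj] using this)
  have hdeg : P.natDegree ≤ n :=
    natDegree_sum_le_of_forall_le _ _ fun i _ => (natDegree_monomial_le _).trans i.2.le
  refine le_trans (Finset.card_le_card_of_injOn t (t := P.roots.toFinset) (fun r hr => ?_)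
    ht.injOn) ((Multiset.toFinset_card_le _).trans ((card_roots' P).trans hdeg))
  simp only [Finset.coe_filter, mem_setOf_eq] at hr
  have h1 : P.eval (t r) * c r = 0 := by
    calc P.eval (t r) * c r = ∑ i, u i * ∑ l, ν i l * a r l := by
          simp only [P, eval_finsetSum, eval_monomial, Finset.sum_mul, h, mul_assoc]
      _ = ∑ l, (∑ i, u i * ν i l) * a r l := by
          simp only [Finset.mul_sum, Finset.sum_mul, mul_assoc]
          exact Finset.sum_comm
      _ = 0 := by simp [hu']
  simpa [hP] using (mul_eq_zero.1 h1).resolve_right hr.2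

theorem no_complement {n m : ℕ} (hmn : m < n) {S : (Eu m → ℝ) → Eu n → ℝ}
    {T : (Eu n → ℝ) → Eu m → ℝ} {C C' : ℝ≥0} (hS : Good S C) (hT : Good T C')
    (hST : ∀ (f : Eu n → ℝ) (K : ℝ≥0), LipschitzWith K f → f 0 = 0 → S (T f) = f) : False := by
  classical
  let φ : ContDiffBump (0 : Eu n) := ⟨1, 2, one_pos, one_lt_two⟩
  obtain ⟨σ, hσ, ν, hν1, hν2, hν3⟩ := exists_rep hS (ψ₀ := φ) φ.integrable
  have hν : IsRep S φ σ ν := ⟨hν1, hν2, hν3⟩
  let t : ℕ → ℝ := fun r => 1 / ((r : ℝ) + 1)
  have ht : Function.Injective t := fun r s h => by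
    simpa [t] using h
  have ht1 : ∀ r, |t r| ≤ 1 := fun r => by
    rw [abs_of_nonneg (by positivity), div_le_one (by positivity)]
    simp
  let i₀ : Fin n := ⟨0, by omega⟩
  choose a ha1 ha2 ha3 ha4 using fun r : ℕ => one_dir hS hT hST φ.contDiff φ.hasCompactSupport hν
    (ξ := fun i => t r ^ (i : ℕ)) (i₀ := i₀) (pow_zero _)
    (fun i => by rw [abs_pow]; exact pow_le_one₀ (abs_nonneg _) (ht1 r))
  set D₀ : ℝ := 4 * (σ.real univ * (C' * n) ^ 2) with hD₀
  set κ : ℝ := ∫ x, φ x ^ 2 with hκ
  have hκ0 : 0 < κ := by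
    refine Continuous.integral_pos_of_hasCompactSupport_nonneg_nonzero (x := 0)
      (φ.continuous.pow 2) ?_ (fun x => sq_nonneg _) ?_
    · simp only [sq]
      exact φ.hasCompactSupport.mul_right
    · simp [φ.one_of_mem_closedBall (Metric.mem_closedBall_self φ.rIn_pos.le)]
  let c : ℕ → Eu n × Eu m → ℝ := fun r p => ∑ l, ν i₀ l p * a r l p
  have hνm : ∀ l, MemLp (ν i₀ l) ⊤ σ := fun l =>
    memLp_top_of_bound (hν1 i₀ l).aestronglyMeasurable 1 (hν2 i₀ l)
  have hc : ∀ r, MemLp (c r) 2 σ := fun r =>
    memLp_finsetSum _ fun l _ => (ha1 r l).mul (hνm l)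
  have hφ1 : ∀ x, |φ x| ≤ 1 := fun x => abs_le.2 ⟨by linarith [φ.nonneg (x := x)], φ.le_one⟩
  have hφm := fun l => hν.memLp i₀ l (w := fun p => φ p.1) (φ.continuous.comp continuous_fst)
    fun p => hφ1 p.1
  have hci : ∀ r, Integrable (fun p => φ p.1 * c r p) σ := fun r =>
    ((hc r).integrable one_le_two).bdd_mul (c := 1)
      (φ.continuous.comp continuous_fst).aestronglyMeasurable (.of_forall fun p => hφ1 p.1)
  have hc1 : ∀ r, ∫ p, φ p.1 * c r p ∂σ = κ := fun r => by
    rw [← ha4 r]
    simp only [c, Finset.mul_sum, ← mul_assoc]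
    exact integral_finsetSum _ fun l _ => (hφm l).integrable_mul (ha1 r l)
  set D : ℝ := m * (m * D₀) + 1 with hD
  have hD0 : 0 < D := by positivity
  have hc2 : ∀ r, ∫ p, c r p ^ 2 ∂σ ≤ D := fun r => by
    calc ∫ p, c r p ^ 2 ∂σ ≤ ∫ p, m * ∑ l, a r l p ^ 2 ∂σ := by
          refine integral_mono_ae (hc r).integrable_sq
            ((integrable_finsetSum _ fun l _ => (ha1 r l).integrable_sq).const_mul _) ?_
          filter_upwards [ae_all_iff.2 (hν2 i₀)] with p hp
          refine (Finset.sum_mul_sq_le_sq_mul_sq _ _ _).trans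
            (mul_le_mul_of_nonneg_right ?_ (by positivity))
          calc ∑ l, ν i₀ l p ^ 2 ≤ ∑ _l : Fin m, (1 : ℝ) :=
                Finset.sum_le_sum fun l _ => (sq_le_one_iff_abs_le_one _).2 (hp l)
            _ = m := by simp
      _ ≤ m * ∑ _l : Fin m, D₀ := by
          rw [integral_const_mul, integral_finsetSum _ fun l _ => (ha1 r l).integrable_sq]
          exact mul_le_mul_of_nonneg_left (Finset.sum_le_sum fun l _ => ha2 r l) (by positivity)
      _ ≤ D := by simp [hD]
  set ε : ℝ := κ / (2 * D) with hε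
  have hε0 : 0 < ε := by positivity
  have key : ∀ N : ℕ, N * κ ≤ N * (ε * D) + σ.real univ * (n * (1 / ε)) := fun N => by
    calc N * κ = ∫ p, ∑ r ∈ Finset.range N, φ p.1 * c r p ∂σ := by
          rw [integral_finsetSum _ fun r _ => hci r]
          simp [hc1]
      _ ≤ ∫ p, (∑ r ∈ Finset.range N, ε * c r p ^ 2) + n * (1 / ε) ∂σ := by
          refine integral_mono_ae (integrable_finsetSum _ fun r _ => hci r)
            ((integrable_finsetSum _ fun r _ => (hc r).integrable_sq.const_mul ε).add
              (integrable_const _)) ?_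
          filter_upwards [ae_all_iff.2 fun r => ae_all_iff.2 (ha3 r)] with p hp
          have h1 := card_ne_zero_le hmn (fun i l => ν i l p) (fun r l => a r l p)
            (fun r => c r p) t ht hp N
          calc ∑ r ∈ Finset.range N, φ p.1 * c r p
              ≤ ∑ r ∈ Finset.range N, (ε * c r p ^ 2 + if c r p ≠ 0 then 1 / ε else 0) := by
                refine Finset.sum_le_sum fun r _ => ?_
                split_ifs with h
                · have h2 : φ p.1 * c r p ≤ |c r p| := by
                    refine (le_abs_self _).trans ?_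
                    rw [abs_mul]
                    exact mul_le_of_le_one_left (abs_nonneg _) (hφ1 _)
                  refine h2.trans (le_of_mul_le_mul_left ?_ hε0)
                  rw [mul_add, mul_one_div_cancel hε0.ne', ← sq_abs]
                  nlinarith [sq_nonneg (ε * |c r p| - 1), mul_nonneg hε0.le (abs_nonneg (c r p))]
                · simp [not_not.1 h]
            _ ≤ _ := by
                rw [Finset.sum_add_distrib, ← Finset.sum_filter, Finset.sum_const, nsmul_eq_mul]
                exact add_le_add le_rfl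
                  (mul_le_mul_of_nonneg_right (by exact_mod_cast h1) (by positivity))
      _ ≤ _ := by
          rw [integral_add (integrable_finsetSum _ fun r _ => (hc r).integrable_sq.const_mul ε)
            (integrable_const _), integral_finsetSum _ fun r _ => (hc r).integrable_sq.const_mul ε,
            integral_const, smul_eq_mul]
          refine add_le_add ?_ le_rfl
          calc ∑ r ∈ Finset.range N, ∫ p, ε * c r p ^ 2 ∂σ ≤ ∑ _r ∈ Finset.range N, ε * D :=
                Finset.sum_le_sum fun r _ => by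
                  rw [integral_const_mul]
                  exact mul_le_mul_of_nonneg_left (hc2 r) hε0.le
            _ = _ := by simp
  have h1 : ε * D = κ / 2 := by
    rw [hε]
    field_simp
  obtain ⟨N, hN⟩ := exists_nat_gt (σ.real univ * (n * (1 / ε)) / (κ / 2))
  rw [div_lt_iff₀ (by positivity)] at hN
  have := key N
  rw [h1] at this
  linarith

end Pool.Agent.MP_d62b8f_an
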