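import Pool.Agent.MP_d62b8f_an.Defs
import Pool.Agent.MP_d62b8f_an.Count

namespace Pool.Agent.MP_d62b8f_an

open Set Filter Topology NNReal

variable {E F : Type*} [NormedAddCommGroup E] [NormedAddCommGroup F]

theorem delta_apply (x : E) (f : Lip0 E) : delta E x f = f.1 x := rfl

/-- The point evaluation as an element of the free space. -/
noncomputable def dl (x : E) : freeSpace E :=
  ⟨delta E x, Submodule.le_topologicalClosure _ (Submodule.subset_span ⟨x, rfl⟩)⟩

theorem norm_dl_sub (x y : E) : ‖dl x - dl y‖ ≤ dist x y :=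
  ContinuousLinearMap.opNorm_le_bound _ dist_nonneg fun f => by
    rw [mul_comm]
    exact f.abs_sub_le x y

theorem dl_zero : dl (0 : E) = 0 := Subtype.ext (ContinuousLinearMap.ext fun f => f.2.1)

theorem free_induction {P : freeSpace E → Prop} (hc : IsClosed {μ | P μ}) (h0 : P 0)
    (hd : ∀ x, P (dl x)) (ha : ∀ μ μ', P μ → P μ' → P (μ + μ'))
    (hs : ∀ (c : ℝ) μ, P μ → P (c • μ)) (μ : freeSpace E) : P μ := by
  have h1 : ∀ φ (hφ : φ ∈ Submodule.span ℝ (range (delta E))),
      P ⟨φ, Submodule.le_topologicalClosure _ hφ⟩ := by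
    intro φ hφ
    induction hφ using Submodule.span_induction with
    | mem φ h =>
      obtain ⟨x, rfl⟩ := h
      exact hd x
    | zero => exact h0
    | add φ φ' _ _ h h' => exact ha _ _ h h'
    | smul c φ _ h => exact hs c _ h
  have h2 : IsClosed (Subtype.val '' {μ : freeSpace E | P μ}) :=
    (Submodule.isClosed_topologicalClosure _).isClosedEmbedding_subtypeVal.isClosedMap _ hc
  have h3 : (Submodule.span ℝ (range (delta E)) : Set (StrongDual ℝ (Lip0 E))) ⊆
      Subtype.val '' {μ : freeSpace E | P μ} := fun φ hφ => ⟨_, h1 φ hφ, rfl⟩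
  obtain ⟨μ', h, h'⟩ := closure_minimal h3 h2 μ.2
  exact Subtype.ext h' ▸ h

open Classical in
/-- A Lipschitz function, normalised at the origin, as an element of `Lip_0`. -/
noncomputable def toLip (g : F → ℝ) : Lip0 F :=
  if h : ∃ K, LipschitzWith K g then
    ⟨fun y => g y - g 0, sub_self _, h.elim fun _ hK => ⟨_, hK.sub (LipschitzWith.const _)⟩⟩
  else 0

theorem toLip_apply {g : F → ℝ} {K : ℝ≥0} (hg : LipschitzWith K g) (y : F) :
    (toLip g).1 y = g y - g 0 := by
  rw [toLip, dif_pos ⟨K, hg⟩]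

theorem norm_toLip_le {g : F → ℝ} {K : ℝ≥0} (hg : LipschitzWith K g) : ‖toLip g‖ ≤ K :=
  Lip0.norm_le K.2 fun x y => by
    rw [toLip_apply hg, toLip_apply hg, sub_sub_sub_cancel_right]
    exact hg.dist_le_mul x y

theorem tendsto_free {f : ℕ → Lip0 F} {f' : Lip0 F} {K : ℝ} (hK : ∀ k, ‖f k‖ ≤ K)
    (hl : ∀ y, Tendsto (fun k => (f k).1 y) atTop (𝓝 (f'.1 y))) (μ : freeSpace F) :
    Tendsto (fun k => μ.1 (f k)) atTop (𝓝 (μ.1 f')) := by
  refine free_induction (P := fun μ => Tendsto (fun k => μ.1 (f k)) atTop (𝓝 (μ.1 f'))) ?_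
    tendsto_const_nhds hl (fun μ μ' h h' => h.add h') (fun c μ h => h.const_mul c) μ
  refine Equicontinuous.isClosed_setOf_tendsto (F := fun k (μ : freeSpace F) => μ.1 (f k)) ?_
    (by fun_prop)
  refine (LipschitzWith.uniformEquicontinuous _ K.toNNReal fun k => ?_).equicontinuous
  refine LipschitzWith.of_dist_le' fun μ μ' => ?_
  rw [dist_eq_norm, mul_comm, Subtype.dist_eq, dist_eq_norm]
  exact ((μ.1 - μ'.1).le_opNorm (f k)).trans
    (mul_le_mul_of_nonneg_left (hK k) (norm_nonneg _))

/-- The adjoint of an operator between free spaces, read on functions. -/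
noncomputable def adj (A : freeSpace E →L[ℝ] freeSpace F) (g : F → ℝ) (x : E) : ℝ :=
  (A (dl x)).1 (toLip g)

theorem exists_bound (A : freeSpace E →L[ℝ] freeSpace F) :
    ∃ C : ℝ≥0, ∀ μ, ‖A μ‖ ≤ C * ‖μ‖ := by
  obtain ⟨C, hC, h⟩ := ContinuousLinearMap.bound (𝕜 := ℝ) (𝕜₂ := ℝ) (σ₁₂ := RingHom.id ℝ)
    (E := freeSpace E) (F := freeSpace F) A
  exact ⟨⟨C, hC.le⟩, h⟩

theorem good_adj (A : freeSpace E →L[ℝ] freeSpace F) {C : ℝ≥0} (hC : ∀ μ, ‖A μ‖ ≤ C * ‖μ‖) :
    Good (adj A) C where
  add {g g' K K'} hg hg' := by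
    have : toLip (g + g') = toLip g + toLip g' := Subtype.ext (funext fun y => by
      change _ = (toLip g).1 y + (toLip g').1 y
      rw [toLip_apply hg, toLip_apply hg', toLip_apply (g := g + g') (hg.add hg')]
      simp only [Pi.add_apply]
      ring)
    ext x
    simp [adj, this]
  smul c g K hg := by
    have : toLip (c • g) = c • toLip g := Subtype.ext (funext fun y => by
      change _ = c * (toLip g).1 y
      rw [toLip_apply hg, toLip_apply (g := c • g) ((lipschitzWith_smul c).comp hg)]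
      simp [mul_sub])
    ext x
    simp [adj, this]
  lip {g K} hg := LipschitzWith.of_dist_le_mul fun x y => by
    have h1 : adj A g x - adj A g y = (A (dl x - dl y)).1 (toLip g) := by
      have h3 : dl x - dl y + dl y = dl x := Subtype.ext (sub_add_cancel (dl x).1 (dl y).1)
      have h2 : A (dl x - dl y) + A (dl y) = A (dl x) :=
        (A.map_add _ _).symm.trans (congrArg A h3)
      rw [adj, adj, ← h2]
      exact add_sub_cancel_right ((A (dl x - dl y)).1 (toLip g)) ((A (dl y)).1 (toLip g))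
    rw [dist_eq_norm, h1, NNReal.coe_mul, mul_right_comm]
    refine (ContinuousLinearMap.le_opNorm _ _).trans
      (mul_le_mul ?_ (norm_toLip_le hg) (norm_nonneg _) (by positivity))
    exact (hC _).trans (mul_le_mul_of_nonneg_left (norm_dl_sub x y) C.2)
  zero g := by simp [adj, dl_zero]
  tendsto {g g' K} hg hl x := by
    have hg' : LipschitzWith K g' := LipschitzWith.of_dist_le_mul fun a b =>
      le_of_tendsto' ((hl a).dist (hl b)) fun k => (hg k).dist_le_mul a b
    refine tendsto_free (fun k => norm_toLip_le (hg k)) (fun y => ?_) _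
    simp only [toLip_apply (hg _), toLip_apply hg']
    exact (hl y).sub (hl 0)

theorem adj_adj (A : freeSpace E →L[ℝ] freeSpace F) (B : freeSpace F →L[ℝ] freeSpace E)
    (h : ∀ μ, B (A μ) = μ) (f : E → ℝ) (K : ℝ≥0) (hf : LipschitzWith K f) (h0 : f 0 = 0) :
    adj A (adj B f) = f := by
  obtain ⟨C, hC⟩ := exists_bound B
  have key : ∀ μ : freeSpace F, μ.1 (toLip (adj B f)) = (B μ).1 (toLip f) :=
    free_induction (isClosed_eq (by fun_prop) (by fun_prop)) (by simp) (fun y => by
      change (toLip (adj B f)).1 y = adj B f y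
      rw [toLip_apply ((good_adj B hC).lip hf), (good_adj B hC).zero, sub_zero])
      (fun μ μ' h h' => by simp [h, h']) (fun c μ h => by simp [h])
  ext x
  rw [adj, key, h]
  change (toLip f).1 x = _
  rw [toLip_apply hf, h0, sub_zero]

theorem not_complemented {n m : ℕ} (hmn : m < n)
    (A : freeSpace (Eu n) →L[ℝ] freeSpace (Eu m)) (B : freeSpace (Eu m) →L[ℝ] freeSpace (Eu n)) :
    ¬∀ μ, B (A μ) = μ := fun h =>
  let ⟨_, hA⟩ := exists_bound A
  let ⟨_, hB⟩ := exists_bound B
  no_complement hmn (good_adj A hA) (good_adj B hB) (adj_adj A B h)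

end Pool.Agent.MP_d62b8f_an
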