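import Pool.Agent.MP_d62b8f_an.Rep

namespace Pool.Agent.MP_d62b8f_an

open MeasureTheory Set Filter Topology NNReal Convolution ContinuousLinearMap

theorem exists_smooth_near {m : ℕ} {t : Eu m → ℝ} {K : ℝ≥0} (ht : LipschitzWith K t)
    (hc : HasCompactSupport t) {r : ℝ} (hr : 0 < r) :
    ∃ g : Eu m → ℝ, ContDiff ℝ 1 g ∧ HasCompactSupport g ∧ LipschitzWith K g ∧
      ∀ y, |g y - t y| ≤ K * r := by
  let φ : ContDiffBump (0 : Eu m) := ⟨r / 2, r, by positivity, by linarith⟩
  refine ⟨φ.normed volume ⋆[lsmul ℝ ℝ, volume] t, ?_, ?_, ?_, fun y => ?_⟩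
  · exact φ.hasCompactSupport_normed.contDiff_convolution_left (n := 1) _ φ.contDiff_normed
      ht.continuous.locallyIntegrable
  · exact φ.hasCompactSupport_normed.convolution _ hc
  · refine LipschitzWith.of_dist_le_mul fun a b => ?_
    have hi : ∀ a, Integrable (fun s => φ.normed volume s * t (a - s)) := fun a =>
      (φ.continuous_normed.mul (ht.continuous.comp (by fun_prop))).integrable_of_hasCompactSupport
        φ.hasCompactSupport_normed.mul_right
    simp only [convolution_def, lsmul_apply, smul_eq_mul, dist_eq_norm]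
    rw [← integral_sub (hi a) (hi b)]
    have : (K * ‖a - b‖ : ℝ) = ∫ s, φ.normed volume s * (K * ‖a - b‖) := by
      rw [integral_mul_const, φ.integral_normed, one_mul]
    rw [this]
    refine norm_integral_le_of_norm_le (φ.integrable_normed.mul_const _) (.of_forall fun s => ?_)
    rw [← mul_sub, norm_mul, Real.norm_of_nonneg (φ.nonneg_normed s)]
    refine mul_le_mul_of_nonneg_left ?_ (φ.nonneg_normed s)
    simpa using ht.norm_sub_le (a - s) (b - s)
  · refine φ.dist_normed_convolution_le ht.continuous.aestronglyMeasurable fun x hx => ?_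
    exact (ht.dist_le_mul x y).trans (mul_le_mul_of_nonneg_left (le_of_lt hx) K.2)

theorem exists_smooth_approx {m : ℕ} {g : Eu m → ℝ} {K : ℝ≥0} (hg : LipschitzWith K g)
    (h0 : g 0 = 0) :
    ∃ G : ℕ → Eu m → ℝ, (∀ j, ContDiff ℝ 1 (G j)) ∧ (∀ j, HasCompactSupport (G j)) ∧
      (∀ j, LipschitzWith K (G j)) ∧ (∀ j y, |G j y| ≤ |g y| + K * (1 / ((j : ℝ) + 1))) ∧
      ∀ y, Tendsto (fun j => G j y) atTop (𝓝 (g y)) := by
  let r : ℕ → Eu m → ℝ := fun j y => max (K * (j - ‖y‖)) 0
  have hr : ∀ j, LipschitzWith K (r j) := fun j => by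
    refine LipschitzWith.max_const (LipschitzWith.of_dist_le_mul fun a b => ?_) 0
    rw [Real.dist_eq, ← mul_sub, abs_mul, NNReal.abs_eq, dist_eq_norm]
    refine mul_le_mul_of_nonneg_left ?_ K.2
    rw [sub_sub_sub_cancel_left, abs_sub_comm]
    exact abs_norm_sub_norm_le a b
  have hr0 : ∀ j y, 0 ≤ r j y := fun j y => le_max_right _ _
  let t : ℕ → Eu m → ℝ := fun j y => max (-r j y) (min (g y) (r j y))
  have ht : ∀ j, LipschitzWith K (t j) := fun j => by
    simpa using (hr j).neg.max (hg.min (hr j))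
  have htc : ∀ j, HasCompactSupport (t j) := fun j => by
    refine HasCompactSupport.intro (isCompact_closedBall (0 : Eu m) j) fun y hy => ?_
    have : r j y = 0 := max_eq_right (mul_nonpos_of_nonneg_of_nonpos K.2 (by
      simp only [mem_closedBall_zero_iff, not_le] at hy
      linarith))
    simp [t, this]
  have htle : ∀ j y, |t j y| ≤ |g y| := fun j y => by
    have := hr0 j y
    simp only [t]
    rcases le_total (g y) (r j y) with h | h <;> rcases le_total (-r j y) (g y) with h' | h' <;>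
      simp only [abs_le, max_def, min_def] <;> split_ifs <;> constructor <;>
      linarith [le_abs_self (g y), neg_abs_le (g y)]
  have hteq : ∀ y, ∀ᶠ j in atTop, t j y = g y := fun y => by
    filter_upwards [tendsto_natCast_atTop_atTop.eventually_ge_atTop (2 * ‖y‖)] with j hj
    have h1 : |g y| ≤ r j y := by
      have := hg.norm_sub_le y 0
      rw [h0, sub_zero, sub_zero, Real.norm_eq_abs] at this
      exact this.trans ((mul_le_mul_of_nonneg_left (by linarith) K.2).trans (le_max_left _ _))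
    simp only [t]
    rw [min_eq_left (abs_le.1 h1).2, max_eq_right (abs_le.1 h1).1]
  choose G hG1 hG2 hG3 hG4 using fun j : ℕ =>
    exists_smooth_near (ht j) (htc j) (r := 1 / ((j : ℝ) + 1)) (by positivity)
  refine ⟨G, hG1, hG2, hG3, fun j y => ?_, fun y => ?_⟩
  · have := abs_sub_abs_le_abs_sub (G j y) (t j y)
    linarith [hG4 j y, htle j y]
  · rw [tendsto_iff_norm_sub_tendsto_zero]
    refine squeeze_zero' (.of_forall fun _ => norm_nonneg _) ?_
      (g := fun j : ℕ => K * (1 / ((j : ℝ) + 1))) ?_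
    · filter_upwards [hteq y] with j hj
      rw [← hj]
      exact hG4 j y
    · simpa using (tendsto_one_div_add_atTop_nhds_zero_nat (𝕜 := ℝ)).const_mul (K : ℝ)

theorem ae_zero_of_trig {X : Type*} [NormedAddCommGroup X] [NormedSpace ℝ X] [MeasurableSpace X]
    [BorelSpace X] [SecondCountableTopology X] [CompleteSpace X] {σ : Measure X} [SigmaFinite σ]
    {u : X → ℝ} (hu : Integrable u σ)
    (hc : ∀ L : X →L[ℝ] ℝ, ∫ x, Real.cos (L x) * u x ∂σ = 0)
    (hs : ∀ L : X →L[ℝ] ℝ, ∫ x, Real.sin (L x) * u x ∂σ = 0) : ∀ᵐ x ∂σ, u x = 0 := by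
  have hp : ∀ {v : X → ℝ}, Integrable v σ → ∀ L : X →L[ℝ] ℝ,
      charFunDual (σ.withDensity fun x => ENNReal.ofReal (v x)) L =
        (∫ x, Real.cos (L x) * max (v x) 0 ∂σ : ℝ) +
          (∫ x, Real.sin (L x) * max (v x) 0 ∂σ : ℝ) * Complex.I := by
    intro v hv L
    have h1 : Integrable (fun x => Real.cos (L x) * max (v x) 0) σ :=
      hv.pos_part.bdd_mul (c := 1) (by fun_prop) (.of_forall fun x => Real.abs_cos_le_one _)
    have h2 : Integrable (fun x => Real.sin (L x) * max (v x) 0) σ :=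
      hv.pos_part.bdd_mul (c := 1) (by fun_prop) (.of_forall fun x => Real.abs_sin_le_one _)
    rw [charFunDual_apply, integral_withDensity_eq_integral_toReal_smul₀
      hv.aemeasurable.ennreal_ofReal (.of_forall fun _ => ENNReal.ofReal_lt_top),
      ← integral_complex_ofReal, ← integral_complex_ofReal, ← integral_mul_const]
    refine Eq.trans ?_ (integral_add (h1.ofReal (𝕜 := ℂ)) ((h2.ofReal (𝕜 := ℂ)).mul_const _))
    refine integral_congr_ae (.of_forall fun x => ?_)
    simp only [ENNReal.toReal_ofReal', Complex.exp_mul_I, Complex.real_smul, Complex.coe_algebraMap]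
    push_cast
    ring
  have key : ∀ w : X → ℝ, Continuous w → (∀ x, |w x| ≤ 1) → ∫ x, w x * u x ∂σ = 0 →
      ∫ x, w x * max (u x) 0 ∂σ = ∫ x, w x * max (-u x) 0 ∂σ := by
    intro w hw hw1 h
    rw [← sub_eq_zero, ← integral_sub
      (hu.pos_part.bdd_mul (c := 1) hw.aestronglyMeasurable (.of_forall hw1))
      (hu.neg_part.bdd_mul (c := 1) hw.aestronglyMeasurable (.of_forall hw1))]
    simpa only [← mul_sub, max_zero_sub_max_neg_zero_eq_self] using h
  haveI := isFiniteMeasure_withDensity_ofReal hu.2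
  haveI := isFiniteMeasure_withDensity_ofReal hu.neg.2
  have h : (σ.withDensity fun x => ENNReal.ofReal (u x)) =
      σ.withDensity fun x => ENNReal.ofReal ((-u) x) := by
    refine Measure.ext_of_charFunDual (funext fun L => ?_)
    rw [hp hu, hp hu.neg]
    simp only [Pi.neg_apply]
    rw [key _ (by fun_prop) (fun x => Real.abs_cos_le_one _) (hc L),
      key _ (by fun_prop) (fun x => Real.abs_sin_le_one _) (hs L)]
  filter_upwards [(withDensity_eq_iff_of_sigmaFinite hu.aemeasurable.ennreal_ofReal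
    hu.neg.aemeasurable.ennreal_ofReal).1 h] with x hx
  rcases le_total (u x) 0 with h | h
  · rw [ENNReal.ofReal_of_nonpos h, eq_comm, ENNReal.ofReal_eq_zero] at hx
    exact le_antisymm h (by simpa using hx)
  · rw [Pi.neg_apply, ENNReal.ofReal_of_nonpos (neg_nonpos.2 h), ENNReal.ofReal_eq_zero] at hx
    exact le_antisymm hx h

theorem ae_zero_of_tensor {n m : ℕ} {σ : Measure (Eu n × Eu m)} [IsFiniteMeasure σ]
    {u : Eu n × Eu m → ℝ} (hu : Integrable u σ)
    (h : ∀ (ψ : Eu n → ℝ) (χ : Eu m → ℝ), ContDiff ℝ 1 ψ → HasCompactSupport ψ →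
      ContDiff ℝ 1 χ → HasCompactSupport χ → ∫ p, ψ p.1 * χ p.2 * u p ∂σ = 0) :
    ∀ᵐ p ∂σ, u p = 0 := by
  have key : ∀ R : ℕ, ∀ᵐ p ∂σ, ‖p‖ ≤ R → u p = 0 := by
    intro R
    let φ : ContDiffBump (0 : Eu n) := ⟨R + 1, R + 2, by positivity, by linarith⟩
    let φ' : ContDiffBump (0 : Eu m) := ⟨R + 1, R + 2, by positivity, by linarith⟩
    have hb : ∀ {a : Eu n → ℝ} {b : Eu m → ℝ}, Continuous a → Continuous b → (∀ x, |a x| ≤ 1) →
        (∀ y, |b y| ≤ 1) → Integrable (fun p => a p.1 * b p.2 * u p) σ := by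
      intro a b ha hb ha1 hb1
      refine hu.bdd_mul (c := 1) (by fun_prop) (.of_forall fun p => ?_)
      rw [norm_mul]
      exact mul_le_one₀ (ha1 _) (norm_nonneg _) (hb1 _)
    have hφ : ∀ x, |φ x| ≤ 1 := fun x => abs_le.2 ⟨by linarith [φ.nonneg (x := x)], φ.le_one⟩
    have hφ' : ∀ x, |φ' x| ≤ 1 := fun x => abs_le.2 ⟨by linarith [φ'.nonneg (x := x)], φ'.le_one⟩
    have hz : ∀ {a : Eu n → ℝ} {b : Eu m → ℝ}, ContDiff ℝ 1 a → ContDiff ℝ 1 b →
        (∀ x, |a x| ≤ 1) → (∀ y, |b y| ≤ 1) →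
        Integrable (fun p => a p.1 * φ p.1 * (b p.2 * φ' p.2) * u p) σ ∧
          ∫ p, a p.1 * φ p.1 * (b p.2 * φ' p.2) * u p ∂σ = 0 := by
      intro a b ha hb' ha1 hb1
      refine ⟨hb (a := fun x => a x * φ x) (b := fun y => b y * φ' y)
        (ha.continuous.mul φ.continuous) (hb'.continuous.mul φ'.continuous) (fun x => ?_)
        (fun y => ?_), h (fun x => a x * φ x) (fun y => b y * φ' y) (ha.mul φ.contDiff)
        φ.hasCompactSupport.mul_left (hb'.mul φ'.contDiff) φ'.hasCompactSupport.mul_left⟩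
      · rw [abs_mul]; exact mul_le_one₀ (ha1 _) (abs_nonneg _) (hφ _)
      · rw [abs_mul]; exact mul_le_one₀ (hb1 _) (abs_nonneg _) (hφ' _)
    have hL : ∀ (L : Eu n × Eu m →L[ℝ] ℝ) (p : Eu n × Eu m),
        L p = (L.comp (inl ℝ _ _)) p.1 + (L.comp (inr ℝ _ _)) p.2 := fun L p =>
      (L.comp_inl_add_comp_inr p).symm
    have := ae_zero_of_trig (hb φ.continuous φ'.continuous hφ hφ') (fun L => ?_) (fun L => ?_)
    · filter_upwards [this] with p hp hR
      rw [φ.one_of_mem_closedBall, φ'.one_of_mem_closedBall] at hp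
      · simpa using hp
      · exact mem_closedBall_zero_iff.2 (((norm_snd_le p).trans hR).trans (by simp [φ']))
      · exact mem_closedBall_zero_iff.2 (((norm_fst_le p).trans hR).trans (by simp [φ]))
    · obtain ⟨h1, h2⟩ := hz (a := fun x => Real.cos (L.comp (inl ℝ _ _) x))
        (b := fun y => Real.cos (L.comp (inr ℝ _ _) y)) (by fun_prop) (by fun_prop)
        (fun _ => Real.abs_cos_le_one _) (fun _ => Real.abs_cos_le_one _)
      obtain ⟨h3, h4⟩ := hz (a := fun x => Real.sin (L.comp (inl ℝ _ _) x))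
        (b := fun y => Real.sin (L.comp (inr ℝ _ _) y)) (by fun_prop) (by fun_prop)
        (fun _ => Real.abs_sin_le_one _) (fun _ => Real.abs_sin_le_one _)
      rw [← sub_zero (0 : ℝ)]
      nth_rw 1 [← h2]
      rw [← h4, ← integral_sub h1 h3]
      refine integral_congr_ae (.of_forall fun p => ?_)
      simp only
      rw [hL L p, Real.cos_add]
      ring
    · obtain ⟨h1, h2⟩ := hz (a := fun x => Real.sin (L.comp (inl ℝ _ _) x))
        (b := fun y => Real.cos (L.comp (inr ℝ _ _) y)) (by fun_prop) (by fun_prop)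
        (fun _ => Real.abs_sin_le_one _) (fun _ => Real.abs_cos_le_one _)
      obtain ⟨h3, h4⟩ := hz (a := fun x => Real.cos (L.comp (inl ℝ _ _) x))
        (b := fun y => Real.sin (L.comp (inr ℝ _ _) y)) (by fun_prop) (by fun_prop)
        (fun _ => Real.abs_cos_le_one _) (fun _ => Real.abs_sin_le_one _)
      rw [← add_zero (0 : ℝ)]
      nth_rw 1 [← h2]
      rw [← h4, ← integral_add h1 h3]
      refine integral_congr_ae (.of_forall fun p => ?_)
      simp only
      rw [hL L p, Real.sin_add]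
      ring
  filter_upwards [ae_all_iff.2 key] with p hp
  exact hp _ (Nat.le_ceil _)

end Pool.Agent.MP_d62b8f_an
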