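import Pool.Agent.MP_d62b8f_an.Seq

namespace Pool.Agent.MP_d62b8f_an

open MeasureTheory Set Filter Topology NNReal

variable {n m : ℕ} {S : (Eu m → ℝ) → Eu n → ℝ} {T : (Eu n → ℝ) → Eu m → ℝ} {C C' : ℝ≥0}

theorem one_seq (hS : Good S C) (hT : Good T C')
    (hST : ∀ (f : Eu n → ℝ) (K : ℝ≥0), LipschitzWith K f → f 0 = 0 → S (T f) = f)
    {ψ₀ : Eu n → ℝ} (h₀ : ContDiff ℝ 1 ψ₀) (h₀c : HasCompactSupport ψ₀)
    {σ : Measure (Eu n × Eu m)} [IsFiniteMeasure σ] {ν : Fin n → Fin m → Eu n × Eu m → ℝ}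
    (hν : IsRep S ψ₀ σ ν) (U : Ultrafilter ℕ) (hU : (U : Filter ℕ) ≤ atTop)
    {ξ : Fin n → ℝ} {i₀ : Fin n} {f ω : ℕ → Eu n → ℝ} {K : ℝ≥0}
    (hf : ∀ k, LipschitzWith K (f k)) (hf0 : ∀ k, f k 0 = 0)
    (hfl : ∀ x, Tendsto (fun k => f k x) atTop (𝓝 0))
    (hω : ∀ k, ContDiff ℝ 1 (ω k)) (hω1 : ∀ k x, |ω k x| ≤ 1)
    (hωc : ∀ i k x, fderiv ℝ (ω k) x (ee i) = ξ i * fderiv ℝ (ω k) x (ee i₀))
    (hfω : ∀ k x, lineDeriv ℝ (f k) x (ee i₀) = ω k x) :
    ∃ a : Fin m → Eu n × Eu m → ℝ, (∀ l, MemLp (a l) 2 σ) ∧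
      (∀ l, ∫ p, a l p ^ 2 ∂σ ≤ σ.real univ * (C' * K) ^ 2) ∧
      (∀ i, ∀ᵐ p ∂σ, ∑ l, ν i l p * a l p = ξ i * ∑ l, ν i₀ l p * a l p) ∧
      Tendsto (fun k => ∫ x, ω k x * (ψ₀ x * (ω k x * ψ₀ x))) U
        (𝓝 (∑ l, ∫ p, ψ₀ p.1 * ν i₀ l p * a l p ∂σ)) := by
  choose G hG1 hG2 hG3 hG4 hG5 using fun k => exists_smooth_approx (hT.lip (hf k)) (hT.zero _)
  have hΘ : ∀ k, ContDiff ℝ 1 fun x => ψ₀ x * (ω k x * ψ₀ x) := fun k => h₀.mul ((hω k).mul h₀)
  have hΘc : ∀ k, HasCompactSupport fun x => ψ₀ x * (ω k x * ψ₀ x) := fun k => h₀c.mul_right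
  have hj : ∀ k, ∃ j, k ≤ j ∧
      dist (∫ x, fderiv ℝ (fun x => ψ₀ x * (ω k x * ψ₀ x)) x (ee i₀) * S (G k j) x)
        (∫ x, fderiv ℝ (fun x => ψ₀ x * (ω k x * ψ₀ x)) x (ee i₀) * f k x) <
          1 / ((k : ℝ) + 1) := fun k => by
    have := tendsto_pair (((hΘ k).continuous_fderiv one_ne_zero).clm_apply continuous_const)
      ((hΘc k).fderiv_apply ℝ (ee i₀)) (u := fun j => S (G k j)) (u' := f k)
      (fun j => (hS.lip (hG3 k j)).continuous) (fun j x => hS.abs_le (hG3 k j) x)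
      (fun x => by simpa only [hST _ _ (hf k) (hf0 k)] using hS.tendsto (hG3 k) (hG5 k) x)
    exact ((eventually_ge_atTop k).and
      (Metric.tendsto_nhds.1 this _ (by positivity))).exists
  choose j hj1 hj2 using hj
  let g : ℕ → Eu m → ℝ := fun k => G k (j k)
  have hjk : ∀ k, 1 / ((j k : ℝ) + 1) ≤ 1 / ((k : ℝ) + 1) := fun k =>
    one_div_le_one_div_of_le (by positivity) (by simpa using hj1 k)
  have hg4 : ∀ k, |g k 0| ≤ (C' * K : ℝ≥0) := fun k => by
    have := hG4 k (j k) 0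
    rw [hT.zero, abs_zero, zero_add] at this
    refine this.trans (mul_le_of_le_one_right (by positivity) ?_)
    rw [div_le_one (by positivity)]
    simp
  have hg5 : ∀ y, Tendsto (fun k => g k y) atTop (𝓝 0) := fun y => by
    have h1 := hT.tendsto (g' := 0) hf hfl y
    rw [hT.map_zero] at h1
    have h2 := h1.abs.add
      ((tendsto_one_div_add_atTop_nhds_zero_nat (𝕜 := ℝ)).const_mul ((C' * K : ℝ≥0) : ℝ))
    simp only [Pi.zero_apply, abs_zero, mul_zero, add_zero] at h2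
    refine squeeze_zero_norm (fun k => (hG4 k (j k) y).trans ?_) h2
    exact add_le_add le_rfl (mul_le_mul_of_nonneg_left (hjk k) (by positivity))
  choose a ha1 ha2 ha3 using fun l : Fin m => exists_weak_limit (σ := σ) U
    (G := fun k p => ω k p.1 * fderiv ℝ (g k) p.2 (ee l))
    (fun k => Continuous.aestronglyMeasurable (((hω k).continuous.comp continuous_fst).mul
      ((((hG1 k _).continuous_fderiv one_ne_zero).clm_apply continuous_const).comp
        continuous_snd))) (B := C' * K) (by positivity) (fun k p => by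
      rw [abs_mul]
      refine (mul_le_of_le_one_left (abs_nonneg _) (hω1 k _)).trans ?_
      refine ((fderiv ℝ (g k) p.2).le_opNorm (ee l)).trans ?_
      rw [norm_ee, mul_one]
      exact norm_fderiv_le_of_lipschitz ℝ (hG3 k _))
  refine ⟨a, ha1, ha2, fun i => ?_, ?_⟩
  · have hi : ∀ i l, Integrable (fun p => ν i l p * a l p) σ := fun i l =>
      (ha1 l).integrable one_le_two |>.bdd_mul (c := 1) (hν.meas i l).aestronglyMeasurable
        (hν.bdd i l)
    have := ae_zero_of_tensor (σ := σ)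
      (u := fun p => ∑ l, ν i l p * a l p - ξ i * ∑ l, ν i₀ l p * a l p)
      ((integrable_finsetSum _ fun l _ => hi i l).sub
        ((integrable_finsetSum _ fun l _ => hi i₀ l).const_mul _)) ?_
    · filter_upwards [this] with p hp using sub_eq_zero.1 hp
    intro ψ χ hψ1 hψ2 hχ1 hχ2
    obtain ⟨B, hB⟩ := hψ2.exists_bound_of_continuous hψ1.continuous
    obtain ⟨B', hB'⟩ := hχ2.exists_bound_of_continuous hχ1.continuous
    have hm : ∀ i l, MemLp (fun p => ψ p.1 * χ p.2 * ν i l p) 2 σ := fun i l =>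
      hν.memLp i l (w := fun p => ψ p.1 * χ p.2) (B := B * B')
        ((hψ1.continuous.comp continuous_fst).mul (hχ1.continuous.comp continuous_snd))
        fun p => by
          rw [norm_mul]
          exact mul_le_mul (hB _) (hB' _) (norm_nonneg _) ((norm_nonneg _).trans (hB 0))
    have h1 := (tendsto_transverse hS h₀ hν hω hω1 (hωc i) (fun k => hG1 k (j k))
      (fun k => hG3 k (j k)) hg4 hg5 hψ1 hψ2 hχ1 hχ2).mono_left hU
    have h2 := (tendsto_finsetSum Finset.univ fun l _ => ha3 l _ (hm i l)).sub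
      ((tendsto_finsetSum Finset.univ fun l _ => ha3 l _ (hm i₀ l)).const_mul (ξ i))
    have h3 := tendsto_nhds_unique h2 h1
    have hi' : ∀ i l, Integrable (fun p => ψ p.1 * χ p.2 * ν i l p * a l p) σ := fun i l =>
      (hm i l).integrable_mul (ha1 l)
    rw [← integral_finsetSum _ fun l _ => hi' i l, ← integral_finsetSum _ fun l _ => hi' i₀ l,
      ← integral_const_mul, ← integral_sub (integrable_finsetSum _ fun l _ => hi' i l)
        ((integrable_finsetSum _ fun l _ => hi' i₀ l).const_mul _)] at h3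
    rw [← h3]
    refine integral_congr_ae (.of_forall fun p => ?_)
    simp only [mul_sub, Finset.mul_sum]
    congr 1 <;> exact Finset.sum_congr rfl fun l _ => by ring
  · obtain ⟨B, hB⟩ := h₀c.exists_bound_of_continuous h₀.continuous
    have h1 := tendsto_finsetSum Finset.univ fun l _ => ha3 l _
      (hν.memLp i₀ l (w := fun p => ψ₀ p.1) (h₀.continuous.comp continuous_fst) fun p => hB _)
    refine h1.congr_dist (squeeze_zero (fun _ => dist_nonneg) (fun k => ?_)
      ((tendsto_one_div_add_atTop_nhds_zero_nat (𝕜 := ℝ)).mono_left hU))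
    have h2 := hν.rep i₀ (fun x => ω k x * ψ₀ x) (g k) ((hω k).continuous.mul h₀.continuous)
      h₀c.mul_left (hG1 k _) (hG2 k _)
    have h3 := ibp (hf k) (hΘ k) (hΘc k) (ee i₀)
    rw [ibp (hS.lip (hG3 k _)) (hΘ k) (hΘc k)] at h2
    simp only [hfω] at h3
    rw [h3]
    refine le_trans (le_of_eq ?_) (hj2 k).le
    rw [← dist_neg_neg _ (∫ x, _ * f k x), h2]
    congr 1
    refine Finset.sum_congr rfl fun l _ => integral_congr_ae (.of_forall fun p => ?_)
    simp only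
    ring

theorem one_dir (hS : Good S C) (hT : Good T C')
    (hST : ∀ (f : Eu n → ℝ) (K : ℝ≥0), LipschitzWith K f → f 0 = 0 → S (T f) = f)
    {ψ₀ : Eu n → ℝ} (h₀ : ContDiff ℝ 1 ψ₀) (h₀c : HasCompactSupport ψ₀)
    {σ : Measure (Eu n × Eu m)} [IsFiniteMeasure σ] {ν : Fin n → Fin m → Eu n × Eu m → ℝ}
    (hν : IsRep S ψ₀ σ ν) {ξ : Fin n → ℝ} {i₀ : Fin n} (hξ0 : ξ i₀ = 1) (hξ : ∀ i, |ξ i| ≤ 1) :
    ∃ a : Fin m → Eu n × Eu m → ℝ, (∀ l, MemLp (a l) 2 σ) ∧
      (∀ l, ∫ p, a l p ^ 2 ∂σ ≤ 4 * (σ.real univ * (C' * n) ^ 2)) ∧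
      (∀ i, ∀ᵐ p ∂σ, ∑ l, ν i l p * a l p = ξ i * ∑ l, ν i₀ l p * a l p) ∧
      ∑ l, ∫ p, ψ₀ p.1 * ν i₀ l p * a l p ∂σ = ∫ x, ψ₀ x ^ 2 := by
  let L : Eu n →L[ℝ] ℝ := innerSL ℝ (WithLp.toLp 2 ξ)
  have hLe : ∀ i, L (ee i) = ξ i := fun i => by
    simp [L, ee, EuclideanSpace.inner_single_right]
  have hL : ∀ v, |L v| ≤ n * ‖v‖ := fun v => by
    rw [clm_apply_eq]
    refine (Finset.abs_sum_le_sum_abs _ _).trans ?_
    calc ∑ i, |v i * L (ee i)| ≤ ∑ _i : Fin n, ‖v‖ := by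
          refine Finset.sum_le_sum fun i _ => ?_
          rw [abs_mul, hLe]
          exact (mul_le_of_le_one_right (abs_nonneg _) (hξ i)).trans (PiLp.norm_apply_le v i)
      _ = _ := by simp
  have key : ∀ φ φ' : ℝ → ℝ, (∀ t, HasDerivAt φ (φ' t) t) → ContDiff ℝ 1 φ' → φ 0 = 0 →
      (∀ t, |φ t| ≤ 2) → (∀ t, |φ' t| ≤ 1) →
      ∃ a : Fin m → Eu n × Eu m → ℝ, (∀ l, MemLp (a l) 2 σ) ∧
        (∀ l, ∫ p, a l p ^ 2 ∂σ ≤ σ.real univ * (C' * (n : ℝ≥0)) ^ 2) ∧
        (∀ i, ∀ᵐ p ∂σ, ∑ l, ν i l p * a l p = ξ i * ∑ l, ν i₀ l p * a l p) ∧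
        Tendsto (fun k : ℕ => ∫ x, φ' ((k + 1) * L x) * (ψ₀ x * (φ' ((k + 1) * L x) * ψ₀ x)))
          (hyperfilter ℕ) (𝓝 (∑ l, ∫ p, ψ₀ p.1 * ν i₀ l p * a l p ∂σ)) := by
    intro φ φ' hφ hφ' hφ0 hφ2 hφ1
    have hd : ∀ (k : ℕ) x, HasFDerivAt (fun x => φ ((k + 1) * L x) / (k + 1))
        (φ' ((k + 1) * L x) • L) x := fun k x => by
      have h1 := ((hφ _).comp_hasFDerivAt x (L.hasFDerivAt.const_mul ((k : ℝ) + 1))).mul_const
        ((k : ℝ) + 1)⁻¹
      simp only [div_eq_mul_inv]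
      refine h1.congr_fderiv ?_
      rw [smul_smul, smul_smul]
      congr 1
      field_simp
    refine one_seq hS hT hST h₀ h₀c hν (hyperfilter ℕ) Nat.hyperfilter_le_atTop
      (f := fun k x => φ ((k + 1) * L x) / (k + 1)) (ω := fun k x => φ' ((k + 1) * L x))
      (fun k => ?_) (fun k => by simp [hφ0]) (fun x => ?_) (fun k => hφ'.comp (by fun_prop))
      (fun k x => hφ1 _) (fun i k x => ?_) (fun k x => ?_)
    · refine lipschitzWith_of_nnnorm_fderiv_le (𝕜 := ℝ) (fun x => (hd k x).differentiableAt)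
        fun x => ?_
      rw [(hd k x).fderiv, ← NNReal.coe_le_coe, coe_nnnorm, norm_smul]
      refine (mul_le_of_le_one_left (norm_nonneg _) (hφ1 _)).trans ?_
      exact L.opNorm_le_bound (by positivity) hL
    · have := (tendsto_one_div_add_atTop_nhds_zero_nat (𝕜 := ℝ)).const_mul 2
      rw [mul_zero] at this
      refine squeeze_zero_norm (fun k => ?_) this
      rw [norm_div, mul_one_div, Real.norm_of_nonneg (r := (k : ℝ) + 1) (by positivity)]
      exact div_le_div_of_nonneg_right (hφ2 _) (by positivity)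
    · have h1 := ((hφ'.differentiable one_ne_zero _).hasDerivAt.comp_hasFDerivAt x
        (L.hasFDerivAt.const_mul ((k : ℝ) + 1))).fderiv
      simp only [Function.comp_def] at h1
      rw [h1]
      simp only [ContinuousLinearMap.smul_apply, smul_eq_mul, hLe, hξ0]
      ring
    · rw [(hd k x).differentiableAt.lineDeriv_eq_fderiv, (hd k x).fderiv]
      simp only [ContinuousLinearMap.smul_apply, smul_eq_mul, hLe, hξ0, mul_one]
  obtain ⟨a, ha1, ha2, ha3, ha4⟩ := key Real.sin Real.cos Real.hasDerivAt_sin Real.contDiff_cos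
    Real.sin_zero (fun t => (Real.abs_sin_le_one t).trans one_le_two) Real.abs_cos_le_one
  obtain ⟨b, hb1, hb2, hb3, hb4⟩ := key (fun t => 1 - Real.cos t) Real.sin
    (fun t => by simpa using (Real.hasDerivAt_cos t).const_sub 1) Real.contDiff_sin (by simp)
    (fun t => abs_le.2 ⟨by linarith [Real.cos_le_one t], by linarith [Real.neg_one_le_cos t]⟩)
    Real.abs_sin_le_one
  refine ⟨fun l p => a l p + b l p, fun l => (ha1 l).add (hb1 l), fun l => ?_, fun i => ?_, ?_⟩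
  · calc ∫ p, (a l p + b l p) ^ 2 ∂σ ≤ ∫ p, 2 * a l p ^ 2 + 2 * b l p ^ 2 ∂σ :=
          integral_mono ((ha1 l).add (hb1 l)).integrable_sq
            (((ha1 l).integrable_sq.const_mul 2).add ((hb1 l).integrable_sq.const_mul 2))
            fun p => by
              simp only
              nlinarith [sq_nonneg (a l p - b l p)]
      _ ≤ _ := by
          rw [integral_add ((ha1 l).integrable_sq.const_mul 2) ((hb1 l).integrable_sq.const_mul 2),
            integral_const_mul, integral_const_mul]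
          have h1 := ha2 l
          have h2 := hb2 l
          simp only [NNReal.coe_natCast] at h1 h2
          linarith
  · filter_upwards [ha3 i, hb3 i] with p h1 h2
    simp only [mul_add, Finset.sum_add_distrib, h1, h2]
  · obtain ⟨B, hB⟩ := h₀c.exists_bound_of_continuous h₀.continuous
    have hm := fun l =>
      hν.memLp i₀ l (w := fun p => ψ₀ p.1) (h₀.continuous.comp continuous_fst) fun p => hB _
    have h1 := ha4.add hb4
    have h2 : ∀ k : ℕ,
        (∫ x, Real.cos ((k + 1) * L x) * (ψ₀ x * (Real.cos ((k + 1) * L x) * ψ₀ x))) +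
        ∫ x, Real.sin ((k + 1) * L x) * (ψ₀ x * (Real.sin ((k + 1) * L x) * ψ₀ x)) =
          ∫ x, ψ₀ x ^ 2 := fun k => by
      have hc := h₀.continuous
      rw [← integral_add]
      · refine integral_congr_ae (.of_forall fun x => ?_)
        simp only
        linear_combination ψ₀ x ^ 2 * Real.cos_sq_add_sin_sq ((k + 1) * L x)
      · exact Continuous.integrable_of_hasCompactSupport (by fun_prop) h₀c.mul_right.mul_left
      · exact Continuous.integrable_of_hasCompactSupport (by fun_prop) h₀c.mul_right.mul_left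
    simp only [h2] at h1
    rw [← tendsto_nhds_unique h1 tendsto_const_nhds, ← Finset.sum_add_distrib]
    refine Finset.sum_congr rfl fun l _ => ?_
    simp only [mul_add]
    exact integral_add ((hm l).integrable_mul (ha1 l)) ((hm l).integrable_mul (hb1 l))

end Pool.Agent.MP_d62b8f_an
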