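import Mathlib

namespace Pool.Agent.MP_d62b8f_an

variable (M : Type*) [MetricSpace M] [Zero M]

/-- The real Lipschitz functions on `M` vanishing at the base point `0`. -/
def lipZero : Submodule ℝ (M → ℝ) where
  carrier := {f | f 0 = 0 ∧ ∃ K, LipschitzWith K f}
  zero_mem' := ⟨rfl, 0, LipschitzWith.const 0⟩
  add_mem' := fun ⟨h, _, hK⟩ ⟨h', _, hK'⟩ => ⟨by simp [h, h'], _, hK.add hK'⟩
  smul_mem' := fun c _ ⟨h, _, hK⟩ => ⟨by simp [h], _, (lipschitzWith_smul c).comp hK⟩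

/-- The space `Lip_0(M)`, a copy of `lipZero M` that carries the Lipschitz norm. -/
def Lip0 : Type _ := lipZero M

instance : AddCommGroup (Lip0 M) := (lipZero M).addCommGroup

instance : Module ℝ (Lip0 M) := (lipZero M).module

/-- The norm of `f` in `Lip_0(M)` is its best Lipschitz constant. -/
noncomputable instance : Norm (Lip0 M) :=
  ⟨fun f => sInf {K : ℝ | 0 ≤ K ∧ ∀ x y, |f.1 x - f.1 y| ≤ K * dist x y}⟩

variable {M}

theorem Lip0.nonempty_bounds (f : Lip0 M) :
    {K : ℝ | 0 ≤ K ∧ ∀ x y, |f.1 x - f.1 y| ≤ K * dist x y}.Nonempty :=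
  let ⟨K, hK⟩ := f.2.2
  ⟨K, K.2, hK.dist_le_mul⟩

theorem Lip0.norm_nonneg' (f : Lip0 M) : 0 ≤ ‖f‖ :=
  le_csInf f.nonempty_bounds fun _ h => h.1

theorem Lip0.norm_le {f : Lip0 M} {K : ℝ} (h0 : 0 ≤ K)
    (h : ∀ x y, |f.1 x - f.1 y| ≤ K * dist x y) : ‖f‖ ≤ K :=
  csInf_le ⟨0, fun _ h => h.1⟩ ⟨h0, h⟩

theorem Lip0.abs_sub_le (f : Lip0 M) (x y : M) : |f.1 x - f.1 y| ≤ ‖f‖ * dist x y := by
  rcases eq_or_ne x y with rfl | h
  · simp
  · rw [← div_le_iff₀ (dist_pos.2 h)]
    exact le_csInf f.nonempty_bounds fun K hK => (div_le_iff₀ (dist_pos.2 h)).2 (hK.2 x y)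

theorem Lip0.norm_smul_le' (c : ℝ) (f : Lip0 M) : ‖c • f‖ ≤ ‖c‖ * ‖f‖ :=
  Lip0.norm_le (mul_nonneg (norm_nonneg c) f.norm_nonneg') fun x y => by
    change |c * f.1 x - c * f.1 y| ≤ _
    rw [← mul_sub, abs_mul, mul_assoc]
    exact mul_le_mul_of_nonneg_left (f.abs_sub_le x y) (abs_nonneg c)

variable (M)

theorem Lip0.core : NormedSpace.Core ℝ (Lip0 M) where
  norm_nonneg := Lip0.norm_nonneg'
  norm_smul c f := by
    refine le_antisymm (Lip0.norm_smul_le' c f) ?_
    rcases eq_or_ne c 0 with rfl | hc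
    · simpa using Lip0.norm_nonneg' _
    · have := Lip0.norm_smul_le' c⁻¹ (c • f)
      rwa [inv_smul_smul₀ hc, norm_inv, le_inv_mul_iff₀ (norm_pos_iff.2 hc)] at this
  norm_triangle f g :=
    Lip0.norm_le (add_nonneg f.norm_nonneg' g.norm_nonneg') fun x y => by
      change |f.1 x + g.1 x - (f.1 y + g.1 y)| ≤ _
      rw [add_sub_add_comm, add_mul]
      exact (abs_add_le _ _).trans (add_le_add (f.abs_sub_le x y) (g.abs_sub_le x y))
  norm_eq_zero_iff f := by
    refine ⟨fun h => Subtype.ext (funext fun x => ?_), fun h => ?_⟩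
    · have := f.abs_sub_le x 0
      rwa [h, zero_mul, f.2.1, sub_zero, abs_nonpos_iff] at this
    · refine le_antisymm (Lip0.norm_le le_rfl fun x y => ?_) f.norm_nonneg'
      subst h
      change |(0 : ℝ) - 0| ≤ _
      simp

noncomputable instance : NormedAddCommGroup (Lip0 M) := NormedAddCommGroup.ofCore (Lip0.core M)

noncomputable instance : NormedSpace ℝ (Lip0 M) := NormedSpace.ofCore (Lip0.core M)

/-- The evaluation functional `δ(x) : f ↦ f x` on `Lip_0(M)`. -/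
noncomputable def delta (x : M) : StrongDual ℝ (Lip0 M) :=
  LinearMap.mkContinuous
    { toFun := fun f => f.1 x
      map_add' := fun _ _ => rfl
      map_smul' := fun _ _ => rfl } (dist x 0) fun f => by
    have := f.abs_sub_le x 0
    rwa [f.2.1, sub_zero, mul_comm] at this

/-- The Lipschitz-free space `F(M)`: the closed linear span of the `δ(x)` in `Lip_0(M)^*`. -/
noncomputable def freeSpace : Submodule ℝ (StrongDual ℝ (Lip0 M)) :=
  (Submodule.span ℝ (Set.range (delta M))).topologicalClosure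

end Pool.Agent.MP_d62b8f_an
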