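import Mathlib

namespace Pool.Agent.MP_d62b8f_an

open MeasureTheory CompactlySupported Set Filter Topology

section
variable {X : Type*} [TopologicalSpace X] {S : Type*} [Fintype S]

/-- The supremum of the positive parts of a finite family of compactly supported functions. -/
noncomputable def supPos (F : S → C_c(X, ℝ)) : ℝ := sInf {M : ℝ | 0 ≤ M ∧ ∀ s x, F s x ≤ M}

theorem supPos_nonempty (F : S → C_c(X, ℝ)) :
    {M : ℝ | 0 ≤ M ∧ ∀ s x, F s x ≤ M}.Nonempty := by
  have h : ∀ s, ∃ C, ∀ x, ‖F s x‖ ≤ C := fun s =>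
    (F s).hasCompactSupport.exists_bound_of_continuous (map_continuous (F s))
  choose C hC using h
  refine ⟨∑ s, |C s|, Finset.sum_nonneg fun s _ => abs_nonneg _, fun s x => ?_⟩
  calc F s x ≤ ‖F s x‖ := le_abs_self _
    _ ≤ |C s| := (hC s x).trans (le_abs_self _)
    _ ≤ ∑ s, |C s| :=
      Finset.single_le_sum (f := fun s => |C s|) (fun s _ => abs_nonneg _) (Finset.mem_univ s)

theorem supPos_nonneg (F : S → C_c(X, ℝ)) : 0 ≤ supPos F :=
  le_csInf (supPos_nonempty F) fun _ h => h.1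

theorem le_supPos (F : S → C_c(X, ℝ)) (s : S) (x : X) : F s x ≤ supPos F :=
  le_csInf (supPos_nonempty F) fun _ h => h.2 s x

omit [Fintype S] in
theorem supPos_le {F : S → C_c(X, ℝ)} {M : ℝ} (h0 : 0 ≤ M) (h : ∀ s x, F s x ≤ M) :
    supPos F ≤ M :=
  csInf_le ⟨0, fun _ h => h.1⟩ ⟨h0, h⟩

theorem supPos_add (F G : S → C_c(X, ℝ)) : supPos (F + G) ≤ supPos F + supPos G :=
  supPos_le (add_nonneg (supPos_nonneg F) (supPos_nonneg G)) fun s x => by
    simpa using add_le_add (le_supPos F s x) (le_supPos G s x)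

theorem supPos_smul_le {c : ℝ} (hc : 0 < c) (F : S → C_c(X, ℝ)) :
    supPos (c • F) ≤ c * supPos F :=
  supPos_le (mul_nonneg hc.le (supPos_nonneg F)) fun s x => by
    simpa using mul_le_mul_of_nonneg_left (le_supPos F s x) hc.le

theorem supPos_smul {c : ℝ} (hc : 0 < c) (F : S → C_c(X, ℝ)) :
    supPos (c • F) = c * supPos F := by
  refine le_antisymm (supPos_smul_le hc F) ?_
  have := supPos_smul_le (inv_pos.2 hc) (c • F)
  rw [smul_smul, inv_mul_cancel₀ hc.ne', one_smul] at this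
  calc c * supPos F ≤ c * (c⁻¹ * supPos (c • F)) := mul_le_mul_of_nonneg_left this hc.le
    _ = supPos (c • F) := by field_simp

end

variable {X : Type*} [TopologicalSpace X] [T2Space X] [LocallyCompactSpace X]
  [SigmaCompactSpace X] [MeasurableSpace X] [BorelSpace X]

theorem finite_riesz (Λ : C_c(X, ℝ) →ₚ[ℝ] ℝ) (C : ℝ)
    (hC : ∀ f : C_c(X, ℝ), (∀ x, f x ≤ 1) → Λ f ≤ C) :
    IsFiniteMeasure (RealRMK.rieszMeasure Λ) := by
  constructor
  have h : ∀ K : Set X, IsCompact K → RealRMK.rieszMeasure Λ K ≤ ENNReal.ofReal C := by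
    intro K hK
    obtain ⟨f, hf1, hf2, -, hf3⟩ :=
      exists_continuousMap_one_of_isCompact_subset_isOpen hK isOpen_univ (subset_univ K)
    let g : C_c(X, ℝ) := ⟨f, hasCompactSupport_def.mpr hf2⟩
    exact (RealRMK.rieszMeasure_le_of_eq_one Λ (f := g) (fun x => (hf3 x).1) hK hf1).trans
      (ENNReal.ofReal_le_ofReal (hC g fun x => (hf3 x).2))
  rw [isOpen_univ.measure_eq_iSup_isCompact]
  refine lt_of_le_of_lt ?_ (ENNReal.ofReal_lt_top (r := C))
  exact iSup_le fun K => iSup_le fun _ => iSup_le fun hK => h K hK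

theorem exists_measures {ι : Type*} [Fintype ι] (W : Submodule ℝ ((ι → C_c(X, ℝ)) × ℝ))
    {C : ℝ} (hC : 0 ≤ C)
    (hW : ∀ p ∈ W, ∀ M : ℝ, (∀ l x, |p.1 l x| ≤ M) → 0 ≤ M → p.2 ≤ C * M) :
    ∃ μ : ι × Bool → Measure X, (∀ s, IsFiniteMeasure (μ s)) ∧
      ∀ p ∈ W, p.2 = ∑ l, (∫ x, p.1 l x ∂μ (l, true) - ∫ x, p.1 l x ∂μ (l, false)) := by
  classical
  let J : (ι → C_c(X, ℝ)) →ₗ[ℝ] (ι × Bool → C_c(X, ℝ)) :=
    { toFun := fun H s => if s.2 then H s.1 else -H s.1
      map_add' := fun H H' => by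
        ext ⟨l, b⟩ x
        cases b <;> simp [add_comm]
      map_smul' := fun c H => by
        ext ⟨l, b⟩ x
        cases b <;> simp }
  let W' := W.map (J.prodMap LinearMap.id)
  have hW' : ∀ p ∈ W', p.2 ≤ C * supPos p.1 := by
    rintro _ ⟨p, hp, rfl⟩
    refine hW p hp _ (fun l x => abs_le.2 ⟨?_, ?_⟩) (supPos_nonneg _)
    · have := le_supPos (J p.1) (l, false) x
      simp only [J, LinearMap.coe_mk, AddHom.coe_mk, Bool.false_eq_true, if_false,
        CompactlySupportedContinuousMap.neg_apply] at this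
      exact neg_le.1 this
    · simpa [J] using le_supPos (J p.1) (l, true) x
  have hg : ∀ p ∈ W', p.1 = 0 → p.2 = 0 := by
    intro p hp h0
    have h1 := hW' p hp
    have h2 := hW' (-p) (W'.neg_mem hp)
    have h3 : supPos (0 : ι × Bool → C_c(X, ℝ)) ≤ 0 := supPos_le le_rfl fun s x => by simp
    simp only [Prod.fst_neg, Prod.snd_neg, h0, neg_zero] at h1 h2
    nlinarith [mul_nonneg hC (neg_nonneg.2 h3)]
  obtain ⟨Φ, hΦ1, hΦ2⟩ := exists_extension_of_le_sublinear W'.toLinearPMap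
    (fun F => C * supPos F) (fun c hc F => by rw [supPos_smul hc]; ring)
    (fun F G => by rw [← mul_add]; exact mul_le_mul_of_nonneg_left (supPos_add F G) hC)
    (fun x => hW' _ (Submodule.mem_graph_toLinearPMap hg x))
  have hsingle : ∀ (s : ι × Bool) (f : C_c(X, ℝ)) (M : ℝ), 0 ≤ M → (∀ x, f x ≤ M) →
      Φ (Pi.single s f) ≤ C * M := by
    intro s f M hM hf
    refine (hΦ2 _).trans (mul_le_mul_of_nonneg_left (supPos_le hM fun t x => ?_) hC)
    by_cases h : t = s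
    · subst h; simpa using hf x
    · simpa [Pi.single_eq_of_ne h] using hM
  let Λ : ι × Bool → (C_c(X, ℝ) →ₚ[ℝ] ℝ) := fun s =>
    PositiveLinearMap.mk₀ (Φ ∘ₗ LinearMap.single ℝ (fun _ => C_c(X, ℝ)) s) fun f hf => by
      have := hsingle s (-f) 0 le_rfl fun x => by simpa using hf x
      rw [Pi.single_neg, map_neg] at this
      simpa using this
  have hΛ : ∀ s f, Λ s f = Φ (Pi.single s f) := fun s f => rfl
  refine ⟨fun s => RealRMK.rieszMeasure (Λ s), fun s => finite_riesz _ C fun f hf => ?_,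
    fun p hp => ?_⟩
  · simpa [hΛ] using hsingle s f 1 zero_le_one hf
  · have hp' : (J p.1, p.2) ∈ W' := ⟨p, hp, rfl⟩
    have hd : J p.1 ∈ W'.toLinearPMap.domain := ⟨_, hp', rfl⟩
    have h1 : W'.toLinearPMap ⟨J p.1, hd⟩ = p.2 := by
      have h2 := Submodule.mem_graph_toLinearPMap hg ⟨J p.1, hd⟩
      have h3 := hg _ (W'.sub_mem h2 hp') (by simp)
      exact sub_eq_zero.1 h3
    rw [← h1, ← hΦ1]
    simp only [RealRMK.integral_rieszMeasure, hΛ]
    conv_lhs => rw [← Finset.univ_sum_single (J p.1), map_sum, Fintype.sum_prod_type]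
    refine Finset.sum_congr rfl fun l _ => ?_
    simp [J, Pi.single_neg, sub_eq_add_neg]

theorem exists_density {κ ι : Type*} [Fintype κ] [Fintype ι]
    (W : κ → Submodule ℝ ((ι → C_c(X, ℝ)) × ℝ)) {C : ℝ} (hC : 0 ≤ C)
    (hW : ∀ i, ∀ p ∈ W i, ∀ M : ℝ, (∀ l x, |p.1 l x| ≤ M) → 0 ≤ M → p.2 ≤ C * M) :
    ∃ σ : Measure X, IsFiniteMeasure σ ∧ ∃ ν : κ → ι → X → ℝ,
      (∀ i l, Measurable (ν i l)) ∧ (∀ i l, ∀ᵐ x ∂σ, |ν i l x| ≤ 1) ∧
      ∀ i, ∀ p ∈ W i, p.2 = ∑ l, ∫ x, ν i l x * p.1 l x ∂σ := by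
  classical
  choose μ hμ hrep using fun i => exists_measures (W i) hC (hW i)
  let σ : Measure X := ∑ t : κ × (ι × Bool), μ t.1 t.2
  have hσ : IsFiniteMeasure σ := by
    constructor
    simp only [σ, Measure.finsetSum_apply]
    exact ENNReal.sum_lt_top.2 fun t _ => measure_lt_top _ _
  have hle : ∀ i s, μ i s ≤ σ := fun i s =>
    Finset.single_le_sum (f := fun t : κ × (ι × Bool) => μ t.1 t.2)
      (fun t _ => Measure.zero_le _) (Finset.mem_univ (i, s))
  let ρ : κ → ι × Bool → X → ℝ := fun i s x => ((μ i s).rnDeriv σ x).toReal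
  have hρm : ∀ i s, Measurable (ρ i s) := fun i s =>
    (Measure.measurable_rnDeriv _ _).ennreal_toReal
  have hρ1 : ∀ i s, ∀ᵐ x ∂σ, 0 ≤ ρ i s x ∧ ρ i s x ≤ 1 := fun i s => by
    filter_upwards [Measure.rnDeriv_le_one_of_le (hle i s)] with x hx
    exact ⟨ENNReal.toReal_nonneg, ENNReal.toReal_le_of_le_ofReal zero_le_one (by simpa using hx)⟩
  have hint : ∀ i s (f : C_c(X, ℝ)), Integrable (fun x => ρ i s x * f x) σ := fun i s f => by
    refine f.integrable.bdd_mul (c := 1) (hρm i s).aestronglyMeasurable ?_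
    filter_upwards [hρ1 i s] with x hx
    rw [Real.norm_of_nonneg hx.1]; exact hx.2
  refine ⟨σ, hσ, fun i l x => ρ i (l, true) x - ρ i (l, false) x,
    fun i l => (hρm _ _).sub (hρm _ _), fun i l => ?_, fun i p hp => ?_⟩
  · filter_upwards [hρ1 i (l, true), hρ1 i (l, false)] with x h1 h2
    exact abs_le.2 ⟨by linarith, by linarith⟩
  · rw [hrep i p hp]
    refine Finset.sum_congr rfl fun l _ => ?_
    simp only [sub_mul]
    rw [integral_sub (hint _ _ _) (hint _ _ _)]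
    congr 1
    · exact (integral_toReal_rnDeriv_mul (Measure.absolutelyContinuous_of_le (hle _ _))).symm
    · exact (integral_toReal_rnDeriv_mul (Measure.absolutelyContinuous_of_le (hle _ _))).symm

end Pool.Agent.MP_d62b8f_an
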