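import Pool.Agent.MP_d62b8f_an.Defs

namespace Pool.Agent.MP_d62b8f_an

variable (M : Type*) [MetricSpace M] [Zero M]

/-- The Lipschitz-free space `F(M)` as a type: the subspace `freeSpace M` of `Lip_0(M)^*`. -/
def Free : Type _ := freeSpace M

/-- `F(M)` carries the norm of `Lip_0(M)^*`, the operator norm. -/
noncomputable instance : NormedAddCommGroup (Free M) := (freeSpace M).normedAddCommGroup

noncomputable instance : NormedSpace ℝ (Free M) := (freeSpace M).normedSpace

/-- Two real normed spaces are isomorphic if there is a bounded linear bijection between them. -/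
def Isomorphic (X Y : Type*) [NormedAddCommGroup X] [NormedSpace ℝ X] [NormedAddCommGroup Y]
    [NormedSpace ℝ Y] : Prop :=
  ∃ T : X →L[ℝ] Y, Function.Bijective T

end Pool.Agent.MP_d62b8f_an
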