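import Pool.Agent.MP_d62b8f_an.HB

namespace Pool.Agent.MP_d62b8f_an

open MeasureTheory CompactlySupported Set Filter Topology NNReal

/-- Properties of the adjoint of a bounded operator between free spaces, read on functions. -/
structure Good {E F : Type*} [NormedAddCommGroup E] [NormedAddCommGroup F]
    (S : (F → ℝ) → E → ℝ) (C : ℝ≥0) : Prop where
  add : ∀ {g g' : F → ℝ} {K K' : ℝ≥0}, LipschitzWith K g → LipschitzWith K' g' →
    S (g + g') = S g + S g'
  smul : ∀ (c : ℝ) {g : F → ℝ} {K : ℝ≥0}, LipschitzWith K g → S (c • g) = c • S g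
  lip : ∀ {g : F → ℝ} {K : ℝ≥0}, LipschitzWith K g → LipschitzWith (C * K) (S g)
  zero : ∀ g : F → ℝ, S g 0 = 0
  tendsto : ∀ {g : ℕ → F → ℝ} {g' : F → ℝ} {K : ℝ≥0}, (∀ k, LipschitzWith K (g k)) →
    (∀ y, Tendsto (fun k => g k y) atTop (𝓝 (g' y))) →
    ∀ x, Tendsto (fun k => S (g k) x) atTop (𝓝 (S g' x))

/-- Euclidean space. -/
abbrev Eu (n : ℕ) := EuclideanSpace ℝ (Fin n)

/-- The standard basis vectors. -/
noncomputable def ee {n : ℕ} (i : Fin n) : Eu n := EuclideanSpace.single i 1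

theorem norm_ee {n : ℕ} (i : Fin n) : ‖ee i‖ = 1 := by simp [ee]

theorem sum_ee {n : ℕ} (v : Eu n) : ∑ i, v i • ee i = v := by
  simpa [ee] using (EuclideanSpace.basisFun (Fin n) ℝ).sum_repr v

theorem clm_apply_eq {n : ℕ} (L : Eu n →L[ℝ] ℝ) (v : Eu n) : L v = ∑ i, v i * L (ee i) := by
  conv_lhs => rw [← sum_ee v, map_sum]
  simp

theorem lipschitz_of_dirs {m : ℕ} {G : Eu m → ℝ} (hG : ContDiff ℝ 1 G) {M : ℝ≥0}
    (h : ∀ l y, |fderiv ℝ G y (ee l)| ≤ M) : LipschitzWith (m * M) G := by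
  refine lipschitzWith_of_nnnorm_fderiv_le (𝕜 := ℝ) (hG.differentiable one_ne_zero) fun y => ?_
  rw [← NNReal.coe_le_coe, coe_nnnorm]
  refine ContinuousLinearMap.opNorm_le_bound _ (by positivity) fun v => ?_
  rw [clm_apply_eq, Real.norm_eq_abs]
  refine (Finset.abs_sum_le_sum_abs _ _).trans ?_
  calc ∑ i, |v i * fderiv ℝ G y (ee i)| ≤ ∑ _i : Fin m, ‖v‖ * M := by
        refine Finset.sum_le_sum fun i _ => ?_
        rw [abs_mul]
        exact mul_le_mul (PiLp.norm_apply_le v i) (h i y) (abs_nonneg _) (norm_nonneg _)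
    _ = _ := by simp; ring

variable {n m : ℕ} {S : (Eu m → ℝ) → Eu n → ℝ} {C : ℝ≥0}

/-- The graph on which Hahn-Banach is used. -/
def graphW (hS : Good S C) (ψ₀ : Eu n → ℝ) (i : Fin n) :
    Submodule ℝ ((Fin m → C_c(Eu n × Eu m, ℝ)) × ℝ) where
  carrier := {p | ∃ r : Eu n → ℝ, Integrable (fun x => r x * ψ₀ x) ∧
    p.2 = ∫ x, r x * ψ₀ x ∧ ∀ᵐ x, ∃ G : Eu m → ℝ, ContDiff ℝ 1 G ∧ HasCompactSupport G ∧
      (∀ l y, p.1 l (x, y) = fderiv ℝ G y (ee l)) ∧ HasLineDerivAt ℝ (S G) (r x) x (ee i)}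
  zero_mem' := by
    refine ⟨0, by simp, by simp, .of_forall fun x => ⟨0, contDiff_const, .zero, by simp, ?_⟩⟩
    have : S 0 = 0 := by simpa using hS.smul 0 (LipschitzWith.const (0 : ℝ))
    rw [this]
    exact hasDerivAt_const (0 : ℝ) (0 : ℝ)
  add_mem' := by
    rintro p q ⟨r, hr1, hr2, hr3⟩ ⟨s, hs1, hs2, hs3⟩
    refine ⟨r + s, (hr1.add hs1).congr (.of_forall fun x => by simp [add_mul]), ?_, ?_⟩
    · simp only [Prod.snd_add, hr2, hs2, Pi.add_apply, add_mul]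
      exact (integral_add hr1 hs1).symm
    · filter_upwards [hr3, hs3] with x ⟨G, hG1, hG2, hG3, hG4⟩ ⟨H, hH1, hH2, hH3, hH4⟩
      obtain ⟨K, hK⟩ := hG1.lipschitzWith_of_hasCompactSupport hG2 one_ne_zero
      obtain ⟨K', hK'⟩ := hH1.lipschitzWith_of_hasCompactSupport hH2 one_ne_zero
      refine ⟨G + H, hG1.add hH1, hG2.add hH2, fun l y => ?_, ?_⟩
      · rw [fderiv_add (hG1.differentiable one_ne_zero y) (hH1.differentiable one_ne_zero y)]
        simp [hG3, hH3]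
      · rw [hS.add hK hK']
        exact HasDerivAt.add hG4 hH4
  smul_mem' := by
    rintro c p ⟨r, hr1, hr2, hr3⟩
    refine ⟨c • r, by simpa [mul_assoc] using hr1.const_mul c, ?_, ?_⟩
    · simp only [Prod.smul_snd, hr2, Pi.smul_apply, smul_eq_mul, mul_assoc]
      exact (integral_const_mul _ _).symm
    · filter_upwards [hr3] with x ⟨G, hG1, hG2, hG3, hG4⟩
      obtain ⟨K, hK⟩ := hG1.lipschitzWith_of_hasCompactSupport hG2 one_ne_zero
      refine ⟨c • G, hG1.const_smul c, hG2.smul_left (f := fun _ => c), fun l y => ?_, ?_⟩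
      · rw [fderiv_const_smul (hG1.differentiable one_ne_zero y)]
        simp [hG3]
      · rw [hS.smul c hK]
        exact HasDerivAt.const_smul c hG4

theorem exists_rep (hS : Good S C) {ψ₀ : Eu n → ℝ} (h₀ : Integrable ψ₀) :
    ∃ σ : Measure (Eu n × Eu m), IsFiniteMeasure σ ∧ ∃ ν : Fin n → Fin m → Eu n × Eu m → ℝ,
      (∀ i l, Measurable (ν i l)) ∧ (∀ i l, ∀ᵐ p ∂σ, |ν i l p| ≤ 1) ∧
      ∀ i (ψ : Eu n → ℝ) (g : Eu m → ℝ), Continuous ψ → HasCompactSupport ψ →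
        ContDiff ℝ 1 g → HasCompactSupport g →
        ∫ x, lineDeriv ℝ (S g) x (ee i) * (ψ₀ x * ψ x) =
          ∑ l, ∫ p, ν i l p * (ψ p.1 * fderiv ℝ g p.2 (ee l)) ∂σ := by
  obtain ⟨σ, hσ, ν, hν1, hν2, hν3⟩ := exists_density (graphW hS ψ₀)
    (C := C * m * ∫ x, |ψ₀ x|) (by positivity) (by
      rintro i p ⟨r, hr1, hr2, hr3⟩ M hM hM0
      lift M to ℝ≥0 using hM0
      rw [hr2, mul_right_comm, ← integral_const_mul]
      refine integral_mono_ae hr1 (h₀.abs.const_mul _) ?_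
      filter_upwards [hr3] with x ⟨G, hG1, hG2, hG3, hG4⟩
      have h1 := hS.lip (lipschitz_of_dirs hG1 (M := M) fun l y => hG3 l y ▸ hM l (x, y))
      have h2 := norm_lineDeriv_le_of_lipschitz ℝ h1 (x₀ := x) (v := ee i)
      rw [hG4.lineDeriv, norm_ee, mul_one, Real.norm_eq_abs] at h2
      refine (le_abs_self _).trans ?_
      rw [abs_mul]
      refine mul_le_mul_of_nonneg_right (h2.trans_eq ?_) (abs_nonneg _)
      push_cast
      ring)
  refine ⟨σ, hσ, ν, hν1, hν2, fun i ψ g hψ1 hψ2 hg1 hg2 => ?_⟩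
  obtain ⟨K, hK⟩ := hg1.lipschitzWith_of_hasCompactSupport hg2 one_ne_zero
  have hc : ∀ l, Continuous fun y => fderiv ℝ g y (ee l) := fun l =>
    (hg1.continuous_fderiv one_ne_zero).clm_apply continuous_const
  let H : Fin m → C_c(Eu n × Eu m, ℝ) := fun l =>
    { toFun := fun p => ψ p.1 * fderiv ℝ g p.2 (ee l)
      continuous_toFun := (hψ1.comp continuous_fst).mul ((hc l).comp continuous_snd)
      hasCompactSupport' := by
        refine HasCompactSupport.intro (hψ2.prod (hg2.fderiv_apply ℝ (ee l))) fun p hp => ?_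
        by_contra h
        exact hp ⟨subset_tsupport _ (left_ne_zero_of_mul h),
          subset_tsupport _ (right_ne_zero_of_mul h)⟩ }
  obtain ⟨B, hB⟩ := hψ2.exists_bound_of_continuous hψ1
  have := hν3 i (H, ∫ x, (lineDeriv ℝ (S g) x (ee i) * ψ x) * ψ₀ x)
    ⟨fun x => lineDeriv ℝ (S g) x (ee i) * ψ x, ?_, rfl, ?_⟩
  · simp only [mul_assoc, mul_comm (ψ₀ _)] at this ⊢
    exact this
  · refine h₀.bdd_mul (c := (C * K : ℝ≥0) * ‖ee i‖ * B)
      ((aestronglyMeasurable_lineDeriv (hS.lip hK).continuous _).mul hψ1.aestronglyMeasurable)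
      (.of_forall fun x => ?_)
    rw [norm_mul]
    exact mul_le_mul (norm_lineDeriv_le_of_lipschitz ℝ (hS.lip hK)) (hB x) (norm_nonneg _)
      (by positivity)
  · filter_upwards [(hS.lip hK).ae_lineDifferentiableAt (μ := volume) (ee i)] with x hx
    refine ⟨ψ x • g, hg1.const_smul (ψ x), hg2.smul_left (f := fun _ => ψ x), fun l y => ?_, ?_⟩
    · rw [fderiv_const_smul (hg1.differentiable one_ne_zero y)]
      rfl
    · rw [hS.smul _ hK, mul_comm]
      exact HasDerivAt.const_smul (ψ x) hx.hasLineDerivAt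

end Pool.Agent.MP_d62b8f_an
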