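import Pool.Agent.MP_d62b8f_an.Weak

namespace Pool.Agent.MP_d62b8f_an

open MeasureTheory Set Filter Topology NNReal

variable {n m : ℕ} {S : (Eu m → ℝ) → Eu n → ℝ} {T : (Eu n → ℝ) → Eu m → ℝ} {C C' : ℝ≥0}

/-- The measure `σ` and the matrix field `ν` represent the gradient of `S g` against `ψ₀`. -/
structure IsRep (S : (Eu m → ℝ) → Eu n → ℝ) (ψ₀ : Eu n → ℝ) (σ : Measure (Eu n × Eu m))
    (ν : Fin n → Fin m → Eu n × Eu m → ℝ) : Prop where
  meas : ∀ i l, Measurable (ν i l)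
  bdd : ∀ i l, ∀ᵐ p ∂σ, |ν i l p| ≤ 1
  rep : ∀ i (ψ : Eu n → ℝ) (g : Eu m → ℝ), Continuous ψ → HasCompactSupport ψ →
    ContDiff ℝ 1 g → HasCompactSupport g →
    ∫ x, lineDeriv ℝ (S g) x (ee i) * (ψ₀ x * ψ x) =
      ∑ l, ∫ p, ν i l p * (ψ p.1 * fderiv ℝ g p.2 (ee l)) ∂σ

theorem Good.abs_le {E F : Type*} [NormedAddCommGroup E] [NormedAddCommGroup F]
    {S : (F → ℝ) → E → ℝ} (hS : Good S C) {g : F → ℝ} {K : ℝ≥0} (hg : LipschitzWith K g)
    (x : E) : |S g x| ≤ (C * K : ℝ≥0) * ‖x‖ := by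
  simpa [hS.zero] using abs_le_of_lip (hS.lip hg) x

theorem Good.map_zero {E F : Type*} [NormedAddCommGroup E] [NormedAddCommGroup F]
    {S : (F → ℝ) → E → ℝ} (hS : Good S C) : S 0 = 0 := by
  simpa using hS.smul 0 (LipschitzWith.const (0 : ℝ))

theorem IsRep.memLp {ψ₀ : Eu n → ℝ} {σ : Measure (Eu n × Eu m)} [IsFiniteMeasure σ]
    {ν : Fin n → Fin m → Eu n × Eu m → ℝ} (hν : IsRep S ψ₀ σ ν) (i : Fin n) (l : Fin m)
    {w : Eu n × Eu m → ℝ} (hw : Continuous w) {B : ℝ} (hB : ∀ p, ‖w p‖ ≤ B) :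
    MemLp (fun p => w p * ν i l p) 2 σ := by
  refine MemLp.of_bound (hw.aestronglyMeasurable.mul (hν.meas i l).aestronglyMeasurable) B ?_
  filter_upwards [hν.bdd i l] with p hp
  rw [norm_mul]
  exact (mul_le_of_le_one_right (norm_nonneg _) hp).trans (hB p)

/-- Oscillating test functions do not see the directions in which they are constant. -/
theorem tendsto_transverse (hS : Good S C) {ψ₀ : Eu n → ℝ} (h₀ : ContDiff ℝ 1 ψ₀)
    {σ : Measure (Eu n × Eu m)} [IsFiniteMeasure σ] {ν : Fin n → Fin m → Eu n × Eu m → ℝ}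
    (hν : IsRep S ψ₀ σ ν) {c : ℝ} {i i₀ : Fin n} {ω : ℕ → Eu n → ℝ}
    (hω : ∀ k, ContDiff ℝ 1 (ω k)) (hω1 : ∀ k x, |ω k x| ≤ 1)
    (hωc : ∀ k x, fderiv ℝ (ω k) x (ee i) = c * fderiv ℝ (ω k) x (ee i₀))
    {g : ℕ → Eu m → ℝ} {K : ℝ≥0} (hg1 : ∀ k, ContDiff ℝ 1 (g k))
    (hg3 : ∀ k, LipschitzWith K (g k)) (hg4 : ∀ k, |g k 0| ≤ K)
    (hg5 : ∀ y, Tendsto (fun k => g k y) atTop (𝓝 0))
    {ψ : Eu n → ℝ} {χ : Eu m → ℝ} (hψ1 : ContDiff ℝ 1 ψ) (hψ2 : HasCompactSupport ψ)
    (hχ1 : ContDiff ℝ 1 χ) (hχ2 : HasCompactSupport χ) :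
    Tendsto (fun k =>
      ∑ l, ∫ p, (ψ p.1 * χ p.2 * ν i l p) * (ω k p.1 * fderiv ℝ (g k) p.2 (ee l)) ∂σ -
      c * ∑ l, ∫ p, (ψ p.1 * χ p.2 * ν i₀ l p) * (ω k p.1 * fderiv ℝ (g k) p.2 (ee l)) ∂σ)
      atTop (𝓝 0) := by
  obtain ⟨K', hK'⟩ := exists_bound_mul hχ1 hχ2 K
  obtain ⟨B, hB⟩ := hψ2.exists_bound_of_continuous hψ1.continuous
  obtain ⟨B', hB'⟩ := hχ2.exists_bound_of_continuous hχ1.continuous
  have hB0 : 0 ≤ B := (norm_nonneg _).trans (hB 0)
  have hL : ∀ k, LipschitzWith K' (χ * g k) := fun k => (hK' _ (hg1 k) (hg3 k) (hg4 k)).2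
  have hd : ∀ {u : Eu m → ℝ}, ContDiff ℝ 1 u → ∀ l, Continuous fun y => fderiv ℝ u y (ee l) :=
    fun hu l => (hu.continuous_fderiv one_ne_zero).clm_apply continuous_const
  -- the error terms
  let err : Fin n → Fin m → ℕ → Eu n × Eu m → ℝ := fun j l k p =>
    ν j l p * (ω k p.1 * ψ p.1 * (g k p.2 * fderiv ℝ χ p.2 (ee l)))
  have herr_m : ∀ j l k, AEStronglyMeasurable (err j l k) σ := fun j l k =>
    (hν.meas j l).aestronglyMeasurable.mul (Continuous.aestronglyMeasurable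
      ((((hω k).continuous.comp continuous_fst).mul (hψ1.continuous.comp continuous_fst)).mul
        (((hg1 k).continuous.comp continuous_snd).mul ((hd hχ1 l).comp continuous_snd))))
  have herr_b : ∀ j l k, ∀ᵐ p ∂σ, ‖err j l k p‖ ≤ B * K' := fun j l k => by
    filter_upwards [hν.bdd j l] with p hp
    simp only [err, norm_mul, Real.norm_eq_abs]
    refine (mul_le_of_le_one_left (by positivity) hp).trans (mul_le_mul ?_ ?_ (by positivity) hB0)
    · exact (mul_le_of_le_one_left (abs_nonneg _) (hω1 k _)).trans (hB _)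
    · refine le_trans (mul_le_mul_of_nonneg_left ?_ (abs_nonneg _))
        ((hK' _ (hg1 k) (hg3 k) (hg4 k)).1 p.2)
      simpa [norm_ee] using (fderiv ℝ χ p.2).le_opNorm (ee l)
  have herr : ∀ j, Tendsto (fun k => ∑ l, ∫ p, err j l k p ∂σ) atTop (𝓝 0) := fun j => by
    have : ∀ l, Tendsto (fun k => ∫ p, err j l k p ∂σ) atTop (𝓝 (∫ _p, (0 : ℝ) ∂σ)) := fun l =>
      tendsto_integral_of_dominated_convergence (fun _ => B * K') (herr_m j l)
        (integrable_const _) (herr_b j l) (.of_forall fun p => by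
          have := (((hg5 p.2).mul_const (fderiv ℝ χ p.2 (ee l))).abs.const_mul
            (|ν j l p| * |ψ p.1|))
          rw [zero_mul, abs_zero, mul_zero] at this
          refine squeeze_zero_norm (fun k => ?_) this
          simp only [err, norm_mul, Real.norm_eq_abs, abs_mul, mul_assoc]
          exact mul_le_mul_of_nonneg_left (mul_le_of_le_one_left (by positivity) (hω1 k _))
            (abs_nonneg _))
    simpa using tendsto_finsetSum Finset.univ fun l _ => this l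
  -- the representation
  have hΘ : ∀ k, ContDiff ℝ 1 fun x => ψ₀ x * (ω k x * ψ x) := fun k => h₀.mul ((hω k).mul hψ1)
  have hΘc : ∀ k, HasCompactSupport fun x => ψ₀ x * (ω k x * ψ x) := fun k =>
    hψ2.mul_left.mul_left
  have hrep : ∀ j k,
      ∑ l, ∫ p, (ψ p.1 * χ p.2 * ν j l p) * (ω k p.1 * fderiv ℝ (g k) p.2 (ee l)) ∂σ =
        -(∫ x, fderiv ℝ (fun x => ψ₀ x * (ω k x * ψ x)) x (ee j) * S (χ * g k) x) -
          ∑ l, ∫ p, err j l k p ∂σ := by
    intro j k
    rw [← ibp (hS.lip (hL k)) (hΘ k) (hΘc k), hν.rep j (fun x => ω k x * ψ x) (χ * g k)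
      ((hω k).continuous.mul hψ1.continuous) hψ2.mul_left (hχ1.mul (hg1 k)) hχ2.mul_right,
      ← Finset.sum_sub_distrib]
    refine Finset.sum_congr rfl fun l _ => ?_
    have hi : Integrable (fun p : Eu n × Eu m =>
        (ψ p.1 * χ p.2 * ν j l p) * (ω k p.1 * fderiv ℝ (g k) p.2 (ee l))) σ := by
      refine (hν.memLp j l (w := fun p => ψ p.1 * χ p.2) (B := B * B')
        ((hψ1.continuous.comp continuous_fst).mul (hχ1.continuous.comp continuous_snd))
        fun p => ?_).integrable_mul (q := 2) (MemLp.of_bound (Continuous.aestronglyMeasurable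
          (((hω k).continuous.comp continuous_fst).mul ((hd (hg1 k) l).comp continuous_snd))) K
          (.of_forall fun p => ?_))
      · rw [norm_mul]
        exact mul_le_mul (hB _) (hB' _) (norm_nonneg _) hB0
      · rw [norm_mul]
        refine (mul_le_of_le_one_left (norm_nonneg _) (hω1 k _)).trans ?_
        refine ((fderiv ℝ (g k) p.2).le_opNorm (ee l)).trans ?_
        rw [norm_ee, mul_one]
        exact norm_fderiv_le_of_lipschitz ℝ (hg3 k)
    rw [eq_sub_iff_add_eq,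
      ← integral_add hi ((integrable_const _).mono' (herr_m j l k) (herr_b j l k))]
    refine integral_congr_ae (.of_forall fun p => ?_)
    simp only [err]
    rw [fderiv_mul (hχ1.differentiable one_ne_zero _) ((hg1 k).differentiable one_ne_zero _)]
    simp only [ContinuousLinearMap.add_apply, ContinuousLinearMap.smul_apply, smul_eq_mul]
    ring
  -- the main terms
  have hθ : ContDiff ℝ 1 (ψ₀ * ψ) := h₀.mul hψ1
  have hθd : ∀ j, Continuous fun x => fderiv ℝ (ψ₀ * ψ) x (ee j) := fun j =>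
    (hθ.continuous_fderiv one_ne_zero).clm_apply continuous_const
  have hθc : ∀ j, HasCompactSupport fun x => fderiv ℝ (ψ₀ * ψ) x (ee j) := fun j =>
    hψ2.mul_left.fderiv_apply ℝ (ee j)
  have hmain : ∀ j, Tendsto (fun k => ∫ x, fderiv ℝ (ψ₀ * ψ) x (ee j) * (ω k x * S (χ * g k) x))
      atTop (𝓝 0) := fun j => by
    have := tendsto_pair (hθd j) (hθc j) (u := fun k x => ω k x * S (χ * g k) x) (u' := 0)
      (fun k => (hω k).continuous.mul (hS.lip (hL k)).continuous) (K := (C * K' : ℝ≥0))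
      (fun k x => by
        rw [abs_mul]
        exact (mul_le_of_le_one_left (abs_nonneg _) (hω1 k _)).trans (hS.abs_le (hL k) x))
      (fun x => by
        have h1 := hS.tendsto (g' := 0) hL (fun y => by simpa using (hg5 y).const_mul (χ y)) x
        rw [hS.map_zero] at h1
        refine squeeze_zero_norm (fun k => ?_) (tendsto_zero_iff_norm_tendsto_zero.1 h1)
        rw [norm_mul]
        exact mul_le_of_le_one_left (norm_nonneg _) (hω1 k _))
    simpa using this
  have hfin := (((hmain i).sub ((hmain i₀).const_mul c)).neg.sub (herr i)).add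
    ((herr i₀).const_mul c)
  simp only [mul_zero, sub_zero, neg_zero, add_zero] at hfin
  refine hfin.congr fun k => ?_
  rw [hrep, hrep]
  have hi1 : ∀ j, Integrable fun x =>
      fderiv ℝ (fun x => ψ₀ x * (ω k x * ψ x)) x (ee j) * S (χ * g k) x := fun j =>
    ((((hΘ k).continuous_fderiv one_ne_zero).clm_apply continuous_const).mul
      (hS.lip (hL k)).continuous).integrable_of_hasCompactSupport
      ((hΘc k).fderiv_apply ℝ (ee j)).mul_right
  have hi2 : ∀ j, Integrable fun x => fderiv ℝ (ψ₀ * ψ) x (ee j) * (ω k x * S (χ * g k) x) :=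
    fun j => ((hθd j).mul ((hω k).continuous.mul
      (hS.lip (hL k)).continuous)).integrable_of_hasCompactSupport (hθc j).mul_right
  have : (∫ x, fderiv ℝ (ψ₀ * ψ) x (ee i) * (ω k x * S (χ * g k) x)) -
      c * ∫ x, fderiv ℝ (ψ₀ * ψ) x (ee i₀) * (ω k x * S (χ * g k) x) =
      (∫ x, fderiv ℝ (fun x => ψ₀ x * (ω k x * ψ x)) x (ee i) * S (χ * g k) x) -
      c * ∫ x, fderiv ℝ (fun x => ψ₀ x * (ω k x * ψ x)) x (ee i₀) * S (χ * g k) x := by
    rw [← integral_const_mul, ← integral_const_mul, ← integral_sub (hi2 i) ((hi2 i₀).const_mul c),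
      ← integral_sub (hi1 i) ((hi1 i₀).const_mul c)]
    refine integral_congr_ae (.of_forall fun x => ?_)
    have : (fun x => ψ₀ x * (ω k x * ψ x)) = ω k * (ψ₀ * ψ) := by
      ext x
      simp only [Pi.mul_apply]
      ring
    simp only [this]
    rw [fderiv_mul ((hω k).differentiable one_ne_zero _) (hθ.differentiable one_ne_zero _)]
    simp only [ContinuousLinearMap.add_apply, ContinuousLinearMap.smul_apply, smul_eq_mul, hωc]
    ring
  rw [this]
  ring

end Pool.Agent.MP_d62b8f_an
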