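import Pool.Agent.MP_d62b8f_an.Approx

namespace Pool.Agent.MP_d62b8f_an

open MeasureTheory Set Filter Topology NNReal

theorem exists_weak_limit {X : Type*} [MeasurableSpace X] {σ : Measure X} [IsFiniteMeasure σ]
    (U : Ultrafilter ℕ) {G : ℕ → X → ℝ} (hG : ∀ k, AEStronglyMeasurable (G k) σ) {B : ℝ}
    (hB0 : 0 ≤ B) (hB : ∀ k x, |G k x| ≤ B) :
    ∃ a : X → ℝ, MemLp a 2 σ ∧ ∫ x, a x ^ 2 ∂σ ≤ σ.real univ * B ^ 2 ∧
      ∀ h : X → ℝ, MemLp h 2 σ →
        Tendsto (fun k => ∫ x, h x * G k x ∂σ) U (𝓝 (∫ x, h x * a x ∂σ)) := by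
  have hm : ∀ k, MemLp (G k) 2 σ := fun k => MemLp.of_bound (hG k) B (.of_forall (hB k))
  set R : ℝ := √(σ.real univ) * B with hR
  have hsq : ∀ f : Lp ℝ 2 σ, ‖f‖ ^ 2 = ∫ x, f x ^ 2 ∂σ := fun f => by
    rw [← real_inner_self_eq_norm_sq, L2.inner_def]
    simp
  have hn : ∀ k, ‖(hm k).toLp‖ ≤ R := fun k => by
    refine (pow_le_pow_iff_left₀ (norm_nonneg _) (by positivity) two_ne_zero).1 ?_
    rw [hsq, hR, mul_pow, Real.sq_sqrt measureReal_nonneg, ← smul_eq_mul, ← integral_const]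
    refine integral_mono_ae (Lp.memLp _).integrable_sq (integrable_const _) ?_
    filter_upwards [(hm k).coeFn_toLp] with x hx
    rw [hx]
    exact sq_le_sq' (abs_le.1 (hB k x)).1 (abs_le.1 (hB k x)).2
  let Φ : ℕ → WeakDual ℝ (Lp ℝ 2 σ) := fun k =>
    StrongDual.toWeakDual (InnerProductSpace.toDual ℝ _ (hm k).toLp)
  obtain ⟨φ, hφ1, hφ2⟩ := (WeakDual.isCompact_closedBall (0 : StrongDual ℝ (Lp ℝ 2 σ)) R)
    |>.ultrafilter_le_nhds (U.map Φ) (by
      rw [Ultrafilter.coe_map, le_principal_iff, Filter.mem_map]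
      exact Eventually.of_forall fun k => by simpa [Φ] using hn k)
  let a := (InnerProductSpace.toDual ℝ (Lp ℝ 2 σ)).symm (WeakDual.toStrongDual φ)
  refine ⟨a, Lp.memLp a, ?_, fun h hh => ?_⟩
  · have : ‖a‖ ≤ R := by simpa [a] using hφ1
    rw [← hsq]
    refine (pow_le_pow_left₀ (norm_nonneg _) this 2).trans_eq ?_
    rw [hR, mul_pow, Real.sq_sqrt measureReal_nonneg]
  · have h1 := ((WeakDual.eval_continuous hh.toLp).tendsto φ).comp hφ2
    have h2 : ∀ f : Lp ℝ 2 σ, inner ℝ f hh.toLp = ∫ x, h x * f x ∂σ := fun f => by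
      rw [L2.inner_def]
      refine integral_congr_ae ?_
      filter_upwards [hh.coeFn_toLp] with x hx
      simp [hx]
    have h3 : φ hh.toLp = ∫ x, h x * a x ∂σ := by
      rw [← h2, InnerProductSpace.toDual_symm_apply]
      rfl
    rw [← h3]
    refine h1.congr fun k => ?_
    change inner ℝ (hm k).toLp hh.toLp = _
    rw [h2]
    refine integral_congr_ae ?_
    filter_upwards [(hm k).coeFn_toLp] with x hx
    rw [hx]

theorem ibp {n : ℕ} {h Θ : Eu n → ℝ} {K : ℝ≥0} (hh : LipschitzWith K h) (hΘ : ContDiff ℝ 1 Θ)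
    (hc : HasCompactSupport Θ) (v : Eu n) :
    ∫ x, lineDeriv ℝ h x v * Θ x = -∫ x, fderiv ℝ Θ x v * h x := by
  obtain ⟨D, hD⟩ := hΘ.lipschitzWith_of_hasCompactSupport hc one_ne_zero
  rw [hh.integral_lineDeriv_mul_eq hD hc, ← integral_neg]
  simp_rw [(hΘ.differentiable one_ne_zero).differentiableAt.lineDeriv_eq_fderiv]
  simp

theorem tendsto_pair {n : ℕ} {θ : Eu n → ℝ} (hθ : Continuous θ) (hc : HasCompactSupport θ)
    {u : ℕ → Eu n → ℝ} {u' : Eu n → ℝ} (hu : ∀ k, Continuous (u k)) {K : ℝ}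
    (hK : ∀ k x, |u k x| ≤ K * ‖x‖) (hl : ∀ x, Tendsto (fun k => u k x) atTop (𝓝 (u' x))) :
    Tendsto (fun k => ∫ x, θ x * u k x) atTop (𝓝 (∫ x, θ x * u' x)) := by
  refine tendsto_integral_of_dominated_convergence (fun x => |θ x| * (K * ‖x‖))
    (fun k => (hθ.mul (hu k)).aestronglyMeasurable) ?_ (fun k => .of_forall fun x => ?_)
    (.of_forall fun x => (hl x).const_mul _)
  · exact (hθ.abs.mul (by fun_prop)).integrable_of_hasCompactSupport hc.abs.mul_right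
  · rw [norm_mul]
    exact mul_le_mul_of_nonneg_left (hK k x) (abs_nonneg _)

theorem abs_le_of_lip {E : Type*} [NormedAddCommGroup E] {g : E → ℝ} {K : ℝ≥0}
    (hg : LipschitzWith K g) (y : E) : |g y| ≤ |g 0| + K * ‖y‖ := by
  have := hg.norm_sub_le y 0
  rw [sub_zero, Real.norm_eq_abs] at this
  linarith [abs_sub_abs_le_abs_sub (g y) (g 0)]

theorem exists_bound_mul {m : ℕ} {χ : Eu m → ℝ} (hχ : ContDiff ℝ 1 χ) (hc : HasCompactSupport χ)
    (K : ℝ≥0) : ∃ K' : ℝ≥0, ∀ g : Eu m → ℝ, ContDiff ℝ 1 g → LipschitzWith K g → |g 0| ≤ K →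
      (∀ y, |g y| * ‖fderiv ℝ χ y‖ ≤ K') ∧ LipschitzWith K' (χ * g) := by
  obtain ⟨B, hB⟩ := hc.exists_bound_of_continuous hχ.continuous
  have h1 : Continuous fun y => (1 + ‖y‖) * ‖fderiv ℝ χ y‖ :=
    (continuous_const.add continuous_norm).mul (hχ.continuous_fderiv one_ne_zero).norm
  obtain ⟨B', hB'⟩ := ((hc.fderiv ℝ).norm.mul_left (f := fun y => 1 + ‖y‖)).exists_bound_of_continuous h1
  have hB0 : 0 ≤ B := (norm_nonneg _).trans (hB 0)
  have hB0' : 0 ≤ B' := (norm_nonneg _).trans (hB' 0)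
  refine ⟨⟨B * K + K * B', by positivity⟩, fun g hg1 hg2 hg3 => ?_⟩
  have h2 : ∀ y, |g y| * ‖fderiv ℝ χ y‖ ≤ K * B' := fun y => by
    have h3 := hB' y
    simp only [Pi.mul_apply, Real.norm_eq_abs] at h3
    calc |g y| * ‖fderiv ℝ χ y‖ ≤ (K * (1 + ‖y‖)) * ‖fderiv ℝ χ y‖ :=
          mul_le_mul_of_nonneg_right (by linarith [abs_le_of_lip hg2 y]) (norm_nonneg _)
      _ ≤ K * B' := by
          rw [mul_assoc]
          exact mul_le_mul_of_nonneg_left ((le_abs_self _).trans h3) K.2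
  refine ⟨fun y => (h2 y).trans (le_add_of_nonneg_left (by positivity)), ?_⟩
  refine lipschitzWith_of_nnnorm_fderiv_le (𝕜 := ℝ)
    ((hχ.mul hg1).differentiable one_ne_zero) fun y => ?_
  rw [← NNReal.coe_le_coe, coe_nnnorm,
    fderiv_mul (hχ.differentiable one_ne_zero y) (hg1.differentiable one_ne_zero y)]
  refine (norm_add_le _ _).trans (add_le_add ?_ ?_)
  · rw [norm_smul]
    exact mul_le_mul (hB y) (norm_fderiv_le_of_lipschitz ℝ hg2) (norm_nonneg _) hB0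
  · rw [norm_smul]
    exact h2 y

end Pool.Agent.MP_d62b8f_an
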